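import Pool.Agent.Lib.MP_7b66ee_ag.AnB

/-! Analytic functions on the multiplicative group. -/

namespace Pool.Agent.Lib.MP_7b66ee_ag.Kob

open Filter Topology IsUltrametricDist

universe u

noncomputable section

variable {K : Type u} [NontriviallyNormedField K]

def un {r : ℝ} (z : Ann K r) : Kˣ := Units.mk0 z.1 z.ne

variable (K) in
/-- functions which are analytic on every closed annulus -/
def Ent : Subalgebra K (Kˣ → K) where
  carrier := {h | ∀ r, (fun z : Ann K r => h (un z)) ∈ An K r}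
  mul_mem' := fun hf hg r => mul_mem (hf r) (hg r)
  add_mem' := fun hf hg r => add_mem (hf r) (hg r)
  algebraMap_mem' := fun c r => (An K r).algebraMap_mem c

/-- restriction to an annulus -/
def ρ (r : ℝ) : Ent K →ₐ[K] An K r where
  toFun h := ⟨fun z => h.1 (un z), h.2 r⟩
  map_one' := rfl
  map_mul' _ _ := rfl
  map_zero' := rfl
  map_add' _ _ := rfl
  commutes' _ := rfl

/-- evaluation -/
def ev (q : Kˣ) : Ent K →ₐ[K] K := (Pi.evalAlgHom K (fun _ => K) q).comp (Ent K).val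

lemma ev_ap (q : Kˣ) (h : Ent K) : ev q h = h.1 q := rfl

lemma ent_ext {f g : Ent K} (h : ∀ q, ev q f = ev q g) : f = g := Subtype.ext (funext h)

def rad (q : Kˣ) : ℝ := max ‖(q : K)‖ ‖(q : K)‖⁻¹

lemma mem_of_rad {q : Kˣ} {r : ℝ} (h : rad q ≤ r) : 1 ≤ r * ‖(q : K)‖ ∧ ‖(q : K)‖ ≤ r := by
  refine ⟨?_, (le_max_left _ _).trans h⟩
  rw [← inv_le_iff_one_le_mul₀ (norm_pos_iff.2 q.ne_zero)]
  exact (le_max_right _ _).trans h

def pt (q : Kˣ) {r : ℝ} (h : rad q ≤ r) : Ann K r := ⟨q, mem_of_rad h⟩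

lemma un_pt (q : Kˣ) {r : ℝ} (h : rad q ≤ r) : un (pt q h) = q := Units.ext rfl

lemma rad_un {r : ℝ} (z : Ann K r) : rad (un z) ≤ r :=
  max_le z.2.2 (by simpa [un] using z.inv_le)

lemma one_le_rad (q : Kˣ) : 1 ≤ rad q := by
  rcases le_total 1 ‖(q : K)‖ with h | h
  · exact le_max_of_le_left h
  · exact le_max_of_le_right ((one_le_inv₀ (norm_pos_iff.2 q.ne_zero)).2 h)

lemma ρ_pt (q : Kˣ) {r : ℝ} (h : rad q ≤ r) (f : Ent K) : (ρ r f).1 (pt q h) = ev q f := by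
  change f.1 (un (pt q h)) = _
  rw [un_pt]; rfl

lemma res_ρ {r s : ℝ} (h : r ≤ s) (f : Ent K) : res K h (ρ s f) = ρ r f := rfl

/-- the coordinate -/
def zE : Ent K := ⟨fun q => q, fun r => (zf r).2⟩

/-- Gauss norm -/
def GE (q : Kˣ) (f : Ent K) : ℝ := G (pt q le_rfl) (ρ (rad q) f)

lemma G_ρ {r : ℝ} (z : Ann K r) (f : Ent K) : G z (ρ r f) = GE (un z) f := by
  rw [GE, ← res_ρ (rad_un z), G_res]; rfl

lemma GE_nonneg (q : Kˣ) (f : Ent K) : 0 ≤ GE q f := G_nonneg _ _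

lemma GE_c (q : Kˣ) (c : K) : GE q (algebraMap K _ c) = ‖c‖ := by
  rw [GE, AlgHom.commutes, G_c]

lemma GE_le {q : Kˣ} {f : Ent K} {c : ℝ} (h : ∀ w : Kˣ, ‖(w : K)‖ = ‖(q : K)‖ → ‖ev w f‖ ≤ c) :
    GE q f ≤ c := G_le fun w hw => h (un w) hw

lemma le_GE {q w : Kˣ} (f : Ent K) (h : ‖(w : K)‖ = ‖(q : K)‖) : ‖ev w f‖ ≤ GE q f := by
  have hr : rad w ≤ rad q := by simp only [rad, h, le_rfl]
  rw [← ρ_pt w hr]
  exact le_G _ h

lemma GE_zE (q : Kˣ) : GE q zE = ‖(q : K)‖ :=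
  le_antisymm (GE_le fun _ hw => hw.le) (le_GE zE rfl)

variable [IsUltrametricDist K]

lemma GE_add (q : Kˣ) (f g : Ent K) : GE q (f + g) ≤ max (GE q f) (GE q g) := by
  rw [GE, map_add]; exact G_add _ _ _

variable [IsAlgClosed K]

lemma GE_mul (q : Kˣ) (f g : Ent K) : GE q (f * g) = GE q f * GE q g := by
  rw [GE, map_mul]; exact G_mul _ _ _

lemma ρ_inj {r : ℝ} (hr : 1 ≤ r) : Function.Injective (ρ (K := K) r) :=
  (injective_iff_map_eq_zero _).2 fun f hf => ent_ext fun q => by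
    have h1 : r ≤ max r (rad q) := le_max_left _ _
    have : ρ (max r (rad q)) f = 0 := res_inj hr h1 (by rw [res_ρ, hf, map_zero])
    rw [← ρ_pt q (le_max_right r _), this, map_zero]; rfl

lemma ρ_ne {r : ℝ} (hr : 1 ≤ r) {f : Ent K} (h : f ≠ 0) : ρ r f ≠ 0 :=
  fun e => h (ρ_inj hr (by rw [e, map_zero]))

instance : IsDomain (Ent K) :=
  have := isDomain (K := K) le_rfl
  (ρ_inj le_rfl).isDomain (ρ (K := K) 1).toRingHom

lemma GE_pos (q : Kˣ) {f : Ent K} (h : f ≠ 0) : 0 < GE q f :=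
  G_pos (one_le_rad q) (ρ_ne (one_le_rad q) h) _

variable [CompleteSpace K]

lemma Df_ρ {r : ℝ} (z : Ann K r) (f : Ent K) :
    Df (ρ (rad (un z)) f) (pt (un z) le_rfl) = Df (ρ r f) z := by
  have := congrArg (fun g : An K _ => g.1 (pt (un z) le_rfl)) (res_D (rad_un z) (ρ r f))
  exact this.symm

/-- z d/dz -/
def θ (f : Ent K) : Ent K := ⟨fun q => Df (ρ (rad q) f) (pt q le_rfl), fun r => by
  have : (fun z : Ann K r => Df (ρ (rad (un z)) f) (pt (un z) le_rfl)) = Df (ρ r f) :=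
    funext fun z => Df_ρ z f
  rw [this]; exact Df_mem _⟩

lemma ρ_θ (r : ℝ) (f : Ent K) : ρ r (θ f) = Dr K r (ρ r f) := an_ext fun z => Df_ρ z f

variable (K) in
/-- z d/dz as a derivation -/
def DE : Derivation K (Ent K) (Ent K) :=
  Derivation.mk'
    { toFun := θ
      map_add' := fun f g => ρ_inj le_rfl (by simp only [ρ_θ, map_add])
      map_smul' := fun c f => ρ_inj le_rfl (by
        simp only [ρ_θ, map_smul, Derivation.map_smul, RingHom.id_apply]) }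
    fun f g => ρ_inj le_rfl (by
      change ρ 1 (θ (f * g)) = ρ 1 (f * θ g + g * θ f)
      simp only [ρ_θ, map_add, map_mul, Derivation.leibniz, smul_eq_mul])

lemma ρ_DE (r : ℝ) (f : Ent K) : ρ r (DE K f) = Dr K r (ρ r f) := ρ_θ r f

lemma GE_D (q : Kˣ) (f : Ent K) : GE q (DE K f) ≤ GE q f := by
  rw [GE, ρ_DE]; exact G_D _ _

lemma DE_zE : DE K zE = zE := ρ_inj le_rfl (by rw [ρ_DE]; exact Subtype.ext Df_zf)

omit [IsUltrametricDist K] [IsAlgClosed K] [CompleteSpace K] in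
lemma big (c : ℝ) : ∃ q Q : Kˣ, 1 < ‖(q : K)‖ ∧ c < ‖(q : K)‖ ∧ ‖(q : K)‖ < ‖(Q : K)‖ ∧
    rad q ≤ rad Q := by
  obtain ⟨q, hq⟩ := NormedField.exists_lt_norm K (max 1 c)
  obtain ⟨Q, hQ⟩ := NormedField.exists_lt_norm K ‖q‖
  have h1 := (le_max_left _ _).trans_lt hq
  have q0 : q ≠ 0 := norm_pos_iff.1 (by linarith)
  have Q0 : Q ≠ 0 := norm_pos_iff.1 (by linarith)
  refine ⟨Units.mk0 q q0, Units.mk0 Q Q0, h1, (le_max_right _ _).trans_lt hq, hQ, ?_⟩
  exact max_le (le_max_of_le_left hQ.le)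
    (le_max_of_le_left (((inv_le_one_of_one_le₀ h1.le).trans h1.le).trans hQ.le))

lemma phi_mono {r : ℝ} (hr : 1 ≤ r) {q Q : Ann K r} (hq : 1 ≤ ‖q.1‖) (hQ : ‖q.1‖ < ‖Q.1‖)
    {g h : An K r} (g0 : g ≠ 0) (h0 : h ≠ 0)
    (H : ∀ z, ∃ h' g' : An K r, g'.1 z ≠ 0 ∧ h * g' = h' * g) : Phi hr q g ≤ Phi hr q h := by
  have := isDomain (K := K) hr
  obtain ⟨a1, a2⟩ := jensen hr hq hQ g0
  obtain ⟨b1, b2⟩ := jensen hr hq hQ h0
  rw [a2, b2]
  refine finsum_le_finsum' (a1.subset fun a ha hc => ha (by simp [hc]))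
    (b1.subset fun a ha hc => ha (by simp [hc])) fun a => ?_
  refine mul_le_mul_of_nonneg_left (Nat.cast_le.2 ?_) (Phi_nonneg hr q (lin_ne hr _))
  obtain ⟨h', g', e1, e2⟩ := H ⟨a.1, a.2.mem⟩
  refine (fin_mult hr hq hQ a.2 h0).le_multiplicity_of_pow_dvd ?_
  refine (lin_prime hr ⟨a.1, a.2.mem⟩).pow_dvd_of_dvd_mul_right _ (fun hd => e1 (lin_dvd.1 hd)) ?_
  rw [e2]
  exact (pow_multiplicity_dvd _ _).mul_left _

/-- a bounded meromorphic function without poles is constant -/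
theorem liouville {g h : Ent K} (g0 : g ≠ 0)
    (H : ∀ q, ∃ h' g' : Ent K, ev q g' ≠ 0 ∧ h * g' = h' * g) {C : ℝ}
    (hC : ∀ q, GE q h ≤ C * GE q g) : ∃ κ : K, h = algebraMap K _ κ * g := by
  obtain ⟨h₁, g₁, e1, e2⟩ := H 1
  set κ := ev 1 h₁ / ev 1 g₁
  refine ⟨κ, sub_eq_zero.1 (by_contra fun h0 => ?_)⟩
  set f := h - algebraMap K _ κ * g
  set C' := max (max C ‖κ‖) 1
  have C0 : 0 < C' := one_pos.trans_le (le_max_right _ _)
  have hf : ∀ q, GE q f ≤ C' * GE q g := fun q => by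
    have := GE_add q h (algebraMap K _ (-κ) * g)
    rw [GE_mul, GE_c, norm_neg, show h + algebraMap K _ (-κ) * g = f by
      simp only [f, map_neg]; ring] at this
    refine this.trans (max_le ((hC q).trans ?_) ?_) <;>
      refine mul_le_mul_of_nonneg_right ?_ (GE_nonneg _ _)
    · exact le_max_of_le_left (le_max_left _ _)
    · exact le_max_of_le_left (le_max_right _ _)
  have hl : ∀ q, Real.log (GE q f) ≤ Real.log C' + Real.log (GE q g) := fun q => by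
    rw [← Real.log_mul C0.ne' (GE_pos q g0).ne']
    exact Real.log_le_log (GE_pos q h0) (hf q)
  obtain ⟨q, Q, q1, q2, q3, q4⟩ := big (K := K)
    (Real.exp (2 * Real.log C' + 2 * Real.log (GE 1 g) - 2 * Real.log (GE 1 f)))
  have hr := one_le_rad Q
  have key := phi_mono hr (q := pt q q4) (Q := pt Q le_rfl) q1.le q3
    (g := lin _ 1 * ρ _ g) (h := ρ _ f) (by
      have := isDomain (K := K) hr
      exact mul_ne_zero (lin_ne hr _) (ρ_ne hr g0)) (ρ_ne hr h0) fun z => by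
    by_cases hz : z.1 = 1
    · have e3 : (ρ _ (h₁ - algebraMap K _ κ * g₁)).1 z = 0 := by
        change ev (un z) (h₁ - algebraMap K _ κ * g₁) = 0
        rw [show un z = 1 from Units.ext hz]
        simp [κ, e1]
      obtain ⟨k, hk⟩ := lin_dvd.2 e3
      refine ⟨k, ρ _ g₁, ?_, ?_⟩
      · change ev (un z) _ ≠ 0
        rwa [show un z = 1 from Units.ext hz]
      · rw [← mul_assoc, mul_comm k, ← hz, ← hk, ← map_mul, ← map_mul]
        congr 1
        simp only [f]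
        linear_combination e2
    · obtain ⟨h₂, g₂, e3, e4⟩ := H (un z)
      refine ⟨ρ _ (h₂ - algebraMap K _ κ * g₂), lin _ 1 * ρ _ g₂,
        mul_ne_zero (sub_ne_zero.2 hz) e3, ?_⟩
      rw [mul_left_comm, mul_left_comm (ρ _ _) (lin _ 1), ← map_mul, ← map_mul]
      congr 2
      simp only [f]
      linear_combination e4
  rw [Phi_mul hr _ (lin_ne hr _) (ρ_ne hr g0), Phi_lin] at key
  simp only [Phi, G_ρ] at key
  have u1 : un (one hr : Ann K _) = 1 := Units.ext rfl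
  have u2 : ‖(pt q q4).1‖ = ‖(q : K)‖ := rfl
  rw [u1, u2, norm_one, max_eq_left q1.le, max_eq_right (inv_le_one_of_one_le₀ q1.le), max_self,
    Real.log_one] at key
  have := Real.log_lt_log (Real.exp_pos _) q2
  rw [Real.log_exp] at this
  linarith [hl (un (pt q q4)), hl (un (pt q q4).inv)]

/-- a function which vanishes at all positive integers vanishes -/
theorem zero_of_nat (hK : ∀ m : ℕ, m ≠ 0 → ‖(m : K)‖ = 1) {f : Ent K}
    (h : ∀ (m : ℕ) (q : Kˣ), (q : K) = m → ev q f = 0) : f = 0 := by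
  by_contra h0
  have : CharZero K :=
    charZero_of_inj_zero fun m hm => by_contra fun h => by simpa [hm] using hK m h
  obtain ⟨q, Q, q1, -, q3, q4⟩ := big (K := K) 0
  have hr := one_le_rad Q
  have hq : 1 ≤ ‖(pt q q4).1‖ := q1.le
  have hQ : ‖(pt q q4).1‖ < ‖(pt Q le_rfl).1‖ := q3
  have hi : ∀ m : ℕ, In (pt q q4) ((m + 1 : ℕ) : K) := fun m => by
    rw [In, hK _ m.succ_ne_zero]
    exact ⟨inv_le_one_of_one_le₀ hq, hq⟩
  refine Set.infinite_of_injective_forall_mem (f := fun m : ℕ => (⟨_, hi m⟩ : {a // In _ a}))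
    (fun m n e => by simpa using e) (fun m => ?_) (jensen hr hq hQ (ρ_ne hr h0)).1
  refine multiplicity_ne_zero.2 ((lin_dvd (z := ⟨_, (hi m).mem⟩)).2 ?_)
  exact h (m + 1) _ rfl

/-- a vanishing Wronskian means proportional -/
theorem wronski (hK : ∀ m : ℕ, m ≠ 0 → ‖(m : K)‖ = 1) {f g : Ent K} (f1 : ev 1 f ≠ 0)
    (h : f * DE K g = g * DE K f) : ∃ κ : K, g = algebraMap K _ κ * f := by
  set κ := ev 1 g / ev 1 f
  refine ⟨κ, sub_eq_zero.1 (by_contra fun h0 => ?_)⟩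
  set p := g - algebraMap K _ κ * f
  have hp : f * DE K p = p * DE K f := by
    simp only [p, map_sub, Derivation.leibniz, Derivation.map_algebraMap, smul_eq_mul]
    linear_combination h
  have p1 : ev 1 p = 0 := by simp [p, κ, f1]
  obtain ⟨q, Q, q1, -, q3, q4⟩ := big (K := K) 0
  have hr := one_le_rad Q
  have := isDomain (K := K) hr
  have hq : 1 ≤ ‖(pt q q4).1‖ := q1.le
  have hQ : ‖(pt q q4).1‖ < ‖(pt Q le_rfl).1‖ := q3
  have hi : In (pt q q4) (1 : K) := by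
    rw [In, norm_one]; exact ⟨inv_le_one_of_one_le₀ hq, hq⟩
  obtain ⟨k, e, hk⟩ := (fin_mult hr hq hQ hi (ρ_ne hr h0)).exists_eq_pow_mul_and_not_dvd
  have u1 : un (one hr : Ann K _) = 1 := Units.ext rfl
  have m0 : multiplicity (lin (rad Q) (1 : K)) (ρ _ p) ≠ 0 :=
    multiplicity_ne_zero.2 ((lin_dvd (z := one hr)).2 (by
      change ev (un _) p = 0
      rwa [u1]))
  obtain ⟨m, hm⟩ := Nat.exists_eq_succ_of_ne_zero m0
  rw [hm] at e
  have h2 := congrArg (ρ (rad Q)) hp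
  rw [map_mul, map_mul, ρ_DE, ρ_DE, e, Derivation.leibniz, Derivation.leibniz_pow, D_lin] at h2
  simp only [smul_eq_mul, nsmul_eq_mul, Nat.succ_eq_add_one, Nat.add_sub_cancel] at h2
  have h3 : lin (rad Q) 1 ^ m * (ρ _ f * (lin _ 1 * Dr K _ k + k * (((m + 1 : ℕ) : An K _) * zf _))
      - lin _ 1 * k * Dr K _ (ρ _ f)) = 0 := by linear_combination h2
  have h4 := congrArg (fun t : An K _ => t.1 (one hr))
    ((mul_eq_zero.1 h3).resolve_left (pow_ne_zero _ (lin_ne hr _)))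
  have k1 : k.1 (one hr) ≠ 0 := fun e => hk ((lin_dvd (z := one hr)).2 e)
  have f2 : (ρ (rad Q) f).1 (one hr) ≠ 0 := by
    change ev (un _) f ≠ 0
    rwa [u1]
  have m1 : ((m + 1 : ℕ) : K) ≠ 0 := fun e => by simpa [e] using hK _ m.succ_ne_zero
  rw [← map_natCast (algebraMap K (An K (rad Q))), sub_ap] at h4
  simp only [mul_ap, add_ap, lin_ap, c_ap, zf_ap] at h4
  rw [show (one hr : Ann K _).1 = 1 from rfl] at h4
  simp only [sub_self, zero_mul, zero_add, mul_one, sub_zero] at h4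
  exact mul_ne_zero f2 (mul_ne_zero k1 m1) h4

end

end Pool.Agent.Lib.MP_7b66ee_ag.Kob
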