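import Pool.Agent.Lib.MP_7b66ee_ag.Kob.Lin
import Pool.Agent.Lib.MP_7b66ee_ag.Kob.Ent

/-! The main estimate. -/

namespace Pool.Agent.Lib.MP_7b66ee_ag.Kob

open Finset Finsupp

universe u

noncomputable section

variable {K : Type u} [NontriviallyNormedField K] [IsUltrametricDist K] [IsAlgClosed K]

/-- the Gauss norm as a monoid homomorphism -/
def GH (q : Kˣ) : Ent K →* ℝ where
  toFun := GE q
  map_one' := by simpa using GE_c q 1
  map_mul' := GE_mul q

lemma GE_pow (q : Kˣ) (f : Ent K) (n : ℕ) : GE q (f ^ n) = GE q f ^ n := map_pow (GH q) f n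

lemma GE_neg (q : Kˣ) (f : Ent K) : GE q (-f) = GE q f := by
  rw [show -f = algebraMap K _ (-1) * f by rw [map_neg, map_one]; ring, GE_mul, GE_c]; simp

lemma GE_sub (q : Kˣ) (f g : Ent K) : GE q (f - g) ≤ max (GE q f) (GE q g) := by
  rw [sub_eq_add_neg, ← GE_neg q g]; exact GE_add _ _ _

omit [IsAlgClosed K] in
lemma GE_sum (q : Kˣ) {α : Type*} (S : Finset α) (f : α → Ent K) {c : ℝ} (hc : 0 ≤ c)
    (h : ∀ a ∈ S, GE q (f a) ≤ c) : GE q (∑ a ∈ S, f a) ≤ c := by
  refine sum_induction f (fun g => GE q g ≤ c) (fun a b ha hb => ?_) ?_ h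
  · exact (GE_add q a b).trans (max_le ha hb)
  · simpa using (GE_c q 0).trans_le (by simpa using hc)

lemma GE_Dt (q : Kˣ) {ι ρ : Type} [Fintype ρ] [DecidableEq ρ] (σ : ρ → ι) (R : ρ → ι → Ent K)
    (B : ρ → ℝ) (h : ∀ r i, GE q (R r i) ≤ B r) : GE q (Dt σ R) ≤ ∏ r, B r := by
  have B0 : ∀ r, 0 ≤ B r := fun r => (GE_nonneg _ _).trans (h r (σ r))
  rw [Dt, Matrix.det_apply]
  refine GE_sum q _ _ (prod_nonneg fun r _ => B0 r) fun τ _ => ?_
  have : GE q (∏ i, R (τ i) (σ i)) ≤ ∏ r, B r := by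
    rw [← Equiv.prod_comp τ B]
    exact (map_prod (GH q) _ _).trans_le (prod_le_prod (fun i _ => GE_nonneg _ _) fun i _ => h _ _)
  rcases Int.units_eq_one_or (Equiv.Perm.sign τ) with e | e <;> rw [e]
  · simpa using this
  · simpa [GE_neg] using this

variable [CompleteSpace K]

theorem core {k : Subfield K} [CharZero k] {ι κ : Type} [Fintype ι] [Fintype κ] [DecidableEq κ]
    (d : κ → ℕ) (F : κ → MvPolynomial ι K) (hF : ∀ l, (F l).IsHomogeneous (d l))
    (x : ι → Ent K) (y : κ → (ι →₀ ℕ) → ι → Ent K) (hFx : ∀ l, MvPolynomial.aeval x (F l) = 0)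
    (hy : ∀ l l' I, I.degree = d l' →
      dv x (y l' I) (F l) = if l = l' then -I.prod (fun i e => x i ^ e) else 0)
    (ty : ∀ l I, I.degree = d l → Tan k x (y l I)) {C : ℝ} (C0 : 0 ≤ C)
    (hC : ∀ l I, I.degree = d l → ∀ q i, GE q (y l I i) ≤ C * GE q (x i))
    {𝒢 : Set (MvPolynomial ι k)} (hom : ∀ g ∈ 𝒢, ∃ e, g.IsHomogeneous e)
    (van : ∀ g ∈ 𝒢, MvPolynomial.aeval x g = 0) {m : ℕ}
    (dim : ringKrullDim (MvPolynomial ι k ⧸ Ideal.span 𝒢) ≤ m)
    (hm : 2 * m ≤ ∑ l, d l + Fintype.card κ + 2) (hm' : Fintype.card κ + 3 ≤ ∑ l, d l)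
    (h0 : ∀ q, ∃ i, ev q (x i) ≠ 0) :
    (∀ i j, x i * DE K (x j) = x j * DE K (x i)) ∨
    ((∃ i j, i ≠ j ∧ ∀ a, ∃ α β : K, x a = algebraMap K _ α * x i + algebraMap K _ β * x j) ∧
      ∃ C', ∀ q i, ∃ j, GE q (x i) ≤ C' * GE q (DE K (x j))) := by
  classical
  rw [or_iff_not_imp_left]
  intro hA
  let M := FractionRing (Ent K)
  let φ : Ent K →ₐ[K] M := IsScalarTower.toAlgHom K _ _
  let ψ : Ent K →ₐ[k] M := IsScalarTower.toAlgHom k _ _
  have inj : Function.Injective φ := IsFractionRing.injective (Ent K) M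
  have z0 : ∀ f, φ f = 0 ↔ f = 0 := fun f => map_eq_zero_iff φ inj
  obtain ⟨b₀, hb₀⟩ := h0 1
  have b0 : x b₀ ≠ 0 := fun e => hb₀ (by rw [e, map_zero])
  have : Nonempty ι := ⟨b₀⟩
  let X : ι → M := fun i => φ (x i)
  let N : κ → (ι → M) →ₗ[M] M := fun l =>
    { toFun := fun v => dv X v (F l)
      map_add' := fun v w => by simp [dv, mul_add, sum_add_distrib]
      map_smul' := fun c v => by simpa using dv_lin X v 0 c 0 (F l) }
  have tan : ∀ v, Tan k x v → Tan k X fun i => φ (v i) := fun v hv g e hg h => by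
    have h1 : MvPolynomial.aeval x g = 0 :=
      (z0 _).1 ((MvPolynomial.comp_aeval_apply x ψ g).trans h)
    exact (dv_map ψ x v g).symm.trans ((z0 _).2 (hv g e hg h1))
  have umap : ∀ p : UI ι d, uvec X (fun l I i => φ (y l I i)) p = fun i => φ (uvec x y p i) :=
    fun p => funext fun i => by simp [uvec, X]
  obtain ⟨n, w, σ, hn, hne, hsw⟩ := lin_core d X (fun i => φ (DE K (x i)))
    (fun l I i => φ (y l I i)) N
    (fun l => (dv_map φ x x _).symm.trans (by rw [dv_euler x (hF l), hFx, mul_zero, map_zero]))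
    (fun l => (dv_map φ x _ _).symm.trans (by rw [dv_der, hFx, map_zero, map_zero]))
    (fun l l' I hI => (dv_map φ x _ _).symm.trans (by
      rw [hy l l' I hI]
      split_ifs <;> simp [Finsupp.prod, X]))
    (Tan k X) (tan x fun g e hg h => by rw [dv_euler x hg, h, mul_zero])
    (tan _ fun g e hg h => by
      have := dv_der ((DE K).restrictScalars k) x g
      rw [h, map_zero] at this
      exact this)
    (fun l I hI => tan _ (ty l I hI))
    (fun p => umap p ▸ tan _ fun g e hg h => by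
      rw [uvec, dv_lin, ty _ _ (by simpa using p.h) g e hg h, ty _ _ (by simpa using p.h) g e hg h]
      simp)
    (m := m) (fun ρ _ v hv ht => card_le hom
      (fun g hg => (MvPolynomial.comp_aeval_apply x ψ g).symm.trans ((z0 _).2 (van g hg))) dim hv ht)
    (by
      push Not at hA
      obtain ⟨i, j, hij⟩ := hA
      have h1 : X i * φ (DE K (x j)) - X j * φ (DE K (x i)) ≠ 0 := by
        rw [← map_mul, ← map_mul, ← map_sub, Ne, z0]; exact sub_ne_zero.2 hij
      rw [Fintype.linearIndependent_iff]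
      intro c hc
      have hi := congrFun hc i
      have hj := congrFun hc j
      simp only [Fintype.sum_bool, cond_true, cond_false, Pi.add_apply, Pi.smul_apply,
        smul_eq_mul, Pi.zero_apply] at hi hj
      rintro (_ | _)
      · exact (mul_eq_zero.1 (by linear_combination X i * hj - X j * hi)).resolve_right h1
      · exact (mul_eq_zero.1 (by
          linear_combination φ (DE K (x j)) * hi - φ (DE K (x i)) * hj)).resolve_right h1)
    (b₀ := b₀) ((z0 _).not.2 b0)
  let Δ : (Fin n → UI ι d) → ι → Ent K := fun w b =>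
    Dt σ (rows x (fun i => DE K (x i)) (fun a => uvec x y (w a)) fun l => y l (single b (d l)))
  have Δmap : ∀ w b, φ (Δ w b) = Dt σ (rows X (fun i => φ (DE K (x i)))
      (fun a => uvec X (fun l I i => φ (y l I i)) (w a)) fun l i => φ (y l (single b (d l)) i)) :=
    fun w b => (Dt_map φ.toRingHom σ _).trans (by
      congr 1
      funext r
      rcases r with (_ | _) | a | l
      exacts [rfl, rfl, (umap _).symm, rfl])
  have Δ0 : Δ w b₀ ≠ 0 := fun e => hne (by rw [← Δmap, e, map_zero])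
  set e := ∑ l, d l
  have sw : ∀ w b, Δ w b * x b₀ ^ e = Δ w b₀ * x b ^ e := fun w b => inj (by
    rw [map_mul, map_mul, Δmap, Δmap, map_pow, map_pow]; exact hsw w b)
  obtain ⟨s, hs⟩ : ∃ s, e = 2 + 2 * n + Fintype.card κ + s :=
    ⟨e - (2 + 2 * n + Fintype.card κ), by omega⟩
  choose b hb using fun q => Finite.exists_max fun i => GE q (x i)
  choose b' hb' using fun q => Finite.exists_max fun i => GE q (DE K (x i))
  have H0 : ∀ q, 0 < GE q (x (b q)) := fun q => (GE_pos q b0).trans_le (hb q b₀)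
  have est : ∀ w q, GE q (Δ w b₀) * GE q (x (b q)) ^ (s + 1) ≤
      C ^ (n + Fintype.card κ) * GE q (DE K (x (b' q))) * GE q (x b₀) ^ e := fun w q => by
    set H := GE q (x (b q))
    have h1 := GE_Dt q σ (rows x (fun i => DE K (x i)) (fun a => uvec x y (w a))
      fun l => y l (single (b q) (d l)))
      (Sum.elim (fun t => cond t H (GE q (DE K (x (b' q))))) (Sum.elim (fun _ => H * (C * H))
        fun _ => C * H)) (by
      have yb : ∀ l I, I.degree = d l → ∀ i, GE q (y l I i) ≤ C * H := fun l I hI i =>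
        (hC l I hI q i).trans (mul_le_mul_of_nonneg_left (hb q i) C0)
      rintro ((_ | _) | a | l) i
      · exact hb' q i
      · exact hb q i
      · refine (GE_sub q _ _).trans (max_le ?_ ?_) <;>
          exact (GE_mul _ _ _).trans_le (mul_le_mul (hb q _) (yb _ _ (by simpa using (w a).h) _)
            (GE_nonneg _ _) (H0 q).le)
      · exact yb _ _ (degree_single _ _) i)
    have h2 := congrArg (GE q) (sw w (b q))
    rw [GE_mul, GE_mul, GE_pow, GE_pow] at h2
    simp only [Fintype.prod_sum_type, Sum.elim_inl, Sum.elim_inr, Fintype.prod_bool, cond_true,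
      cond_false, prod_const, card_univ, Fintype.card_fin] at h1
    have h3 := mul_le_mul_of_nonneg_right h1 (pow_nonneg (GE_nonneg q (x b₀)) e)
    refine le_of_mul_le_mul_right ?_ (pow_pos (H0 q) (1 + 2 * n + Fintype.card κ))
    calc _ = GE q (Δ w b₀) * H ^ e := by rw [hs]; ring
      _ ≤ _ := h2.ge.trans h3
      _ = _ := by ring
  have lv : ∀ w (μ : Ent K), (∀ q, GE q μ ≤ GE q (x (b q)) ^ s) →
      ∃ c : K, Δ w b₀ * μ = algebraMap K _ c * x b₀ ^ e := fun w μ hμ => by
    refine liouville (pow_ne_zero _ b0) (fun q => ?_) (C := C ^ (n + Fintype.card κ)) fun q => ?_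
    · obtain ⟨i, hi⟩ := h0 q
      exact ⟨Δ w i * μ, x i ^ e, by rw [map_pow]; exact pow_ne_zero _ hi,
        by linear_combination -μ * sw w i⟩
    · rw [GE_mul, GE_pow]
      refine le_of_mul_le_mul_right ?_ (H0 q)
      have h1 : GE q (DE K (x (b' q))) ≤ GE q (x (b q)) := (GE_D _ _).trans (hb q _)
      have := GE_nonneg q (Δ w b₀)
      have := GE_nonneg q (x b₀)
      calc _ ≤ GE q (Δ w b₀) * GE q (x (b q)) ^ s * GE q (x (b q)) := by
            gcongr; exacts [(H0 q).le, hμ q]
        _ = GE q (Δ w b₀) * GE q (x (b q)) ^ (s + 1) := by ring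
        _ ≤ _ := est w q
        _ ≤ C ^ (n + Fintype.card κ) * GE q (x (b q)) * GE q (x b₀) ^ e := by gcongr
        _ = _ := by ring
  rcases s with _ | s
  · have n0 : 0 < n := by omega
    let a : Fin n := ⟨0, n0⟩
    set p := w a with hp
    let w' : ι → ι → Fin n → UI ι d := fun i j => Function.update w a ⟨p.l, p.J, i, j, p.h⟩
    choose c hc using fun i j => lv (w' i j) 1 fun q =>
      (GH q).map_one.le.trans_eq (pow_zero _).symm
    let L := DL σ (rows x (fun i => DE K (x i)) (fun a => uvec x y (w a))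
      fun l => y l (single b₀ (d l))) (.inr (.inl a))
    have hL : ∀ i j, L (uvec x y (⟨p.l, p.J, i, j, p.h⟩ : UI ι d)) =
        algebraMap K _ (c i j) * x b₀ ^ e := fun i j => by
      rw [← hc, mul_one, DL_ap, ← rows_upd_w]
      congr 2
      funext a'
      by_cases h : a' = a
      · subst h; simp [w']
      · simp [w', h]
    have wp : w' p.i p.j = w := Function.update_eq_self _ _
    have c0 : c p.i p.j ≠ 0 := fun h => Δ0 (by
      have := hc p.i p.j
      rwa [wp, h, map_zero, zero_mul, mul_one] at this)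
    have g0 := pow_ne_zero e b0
    refine ⟨⟨p.i, p.j, fun h => c0 ?_, fun t => ⟨-c p.j t / c p.i p.j, c p.i t / c p.i p.j, ?_⟩⟩,
      C ^ (n + Fintype.card κ) / ‖c p.i p.j‖, fun q i => ⟨b' q, (hb q i).trans ?_⟩⟩
    · have := hL p.i p.j
      rw [uvec, h, sub_self, map_zero] at this
      rw [h]
      exact (map_eq_zero_iff _ (algebraMap K (Ent K)).injective).1
        ((mul_eq_zero.1 this.symm).resolve_right g0)
    · have h1 : x t • uvec x y (⟨p.l, p.J, p.i, p.j, p.h⟩ : UI ι d) -
          x p.j • uvec x y (⟨p.l, p.J, p.i, t, p.h⟩ : UI ι d) +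
          x p.i • uvec x y (⟨p.l, p.J, p.j, t, p.h⟩ : UI ι d) = 0 := by
        funext i
        simp only [uvec, Pi.add_apply, Pi.sub_apply, Pi.smul_apply, smul_eq_mul, Pi.zero_apply]
        ring
      have h2 := congrArg L h1
      rw [map_add, map_sub, map_smul, map_smul, map_smul, hL, hL, hL, map_zero] at h2
      simp only [smul_eq_mul] at h2
      have h3 : algebraMap K (Ent K) (c p.i p.j) * algebraMap K _ (c p.i p.j)⁻¹ = 1 := by
        rw [← map_mul, mul_inv_cancel₀ c0, map_one]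
      refine mul_right_cancel₀ g0 ?_
      simp only [div_eq_mul_inv, map_mul, map_neg]
      linear_combination algebraMap K (Ent K) (c p.i p.j)⁻¹ * h2 - x t * x b₀ ^ e * h3
    · have h1 := est w q
      have h2 := hc p.i p.j
      rw [wp, mul_one] at h2
      rw [h2, GE_mul, GE_c, GE_pow, zero_add, pow_one] at h1
      rw [div_mul_eq_mul_div, le_div_iff₀ (norm_pos_iff.2 c0)]
      exact le_of_mul_le_mul_right (by linarith) (pow_pos (GE_pos q b0) e)
  · choose c hc using fun i => lv w (x i * x b₀ ^ s) fun q => by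
      rw [GE_mul, GE_pow, pow_succ']
      exact mul_le_mul (hb q i) (pow_le_pow_left₀ (GE_nonneg _ _) (hb q _) _)
        (pow_nonneg (GE_nonneg _ _) _) (H0 q).le
    have g1 : Δ w b₀ * x b₀ ^ s ≠ 0 := mul_ne_zero Δ0 (pow_ne_zero _ b0)
    have c0 : algebraMap K (Ent K) (c b₀) ≠ 0 := fun h => by
      have := hc b₀
      rw [h, zero_mul, mul_left_comm] at this
      exact mul_ne_zero b0 g1 this
    have h1 : ∀ i, algebraMap K _ (c b₀) * x i = algebraMap K _ (c i) * x b₀ := fun i => by
      refine mul_right_cancel₀ g1 ?_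
      linear_combination algebraMap K (Ent K) (c b₀) * hc i - algebraMap K (Ent K) (c i) * hc b₀
    have h2 : ∀ i, algebraMap K _ (c b₀) * DE K (x i) = algebraMap K _ (c i) * DE K (x b₀) :=
      fun i => by simpa using congrArg (DE K) (h1 i)
    refine absurd (fun i j => mul_left_cancel₀ (mul_ne_zero c0 c0) ?_) hA
    linear_combination algebraMap K (Ent K) (c b₀) * DE K (x j) * h1 i +
      algebraMap K (Ent K) (c i) * x b₀ * h2 j - algebraMap K (Ent K) (c b₀) * DE K (x i) * h1 j -
      algebraMap K (Ent K) (c j) * x b₀ * h2 i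

end

end Pool.Agent.Lib.MP_7b66ee_ag.Kob
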