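import Mathlib

/-! Definitions used in the statement. -/

namespace Pool.Agent.Lib.MP_7b66ee_ag.Kob

open Filter Topology

universe u

variable {K : Type u} [NormedField K]

/-- the closure in K of the set of elements algebraic over the field generated by S -/
def Cl (S : Set K) : Set K := closure {b : K | IsAlgebraic (Subfield.closure S) b}

/-- tuples which are topologically algebraically independent over k -/
def Gen (k : Subfield K) (J : Type) : Set (J → K) := {a | ∀ j, a j ∉ Cl (k ∪ a '' {j}ᶜ)}

/-- f is the sum of a Laurent series which converges on the whole multiplicative group -/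
def Hol (f : Kˣ → K) : Prop := ∃ a : ℤ → K,
  (∀ r : ℝ, 0 < r → Tendsto (fun n : ℤ => ‖a n‖ * r ^ n) cofinite (𝓝 0)) ∧
    ∀ z, f z = ∑' n : ℤ, a n * (z : K) ^ n

/-- the monomials of degree d l in N + 1 variables, for all l -/
abbrev Mon (N : ℕ) {c : ℕ} (d : Fin c → ℕ) : Type :=
  Σ l : Fin c, Finset.finsuppAntidiag (Finset.univ : Finset (Fin (N + 1))) (d l)

end Pool.Agent.Lib.MP_7b66ee_ag.Kob
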