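import Mathlib

/-! Extension of derivations in characteristic zero. -/

namespace Pool.Agent.Lib.MP_7b66ee_ag.Kob

open Polynomial

universe u

noncomputable section

lemma fs_field (k L : Type u) [Field k] [Field L] [Algebra k L] [CharZero k] :
    Algebra.FormallySmooth k L := by
  obtain ⟨s, hs⟩ := exists_isTranscendenceBasis k L
  have h1 := hs.isAlgebraic_field
  have : CharZero (IntermediateField.adjoin k (Set.range ((↑) : s → L))) :=
    charZero_of_injective_algebraMap (algebraMap k _).injective
  have : Algebra.IsSeparable (IntermediateField.adjoin k (Set.range ((↑) : s → L))) L :=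
    Algebra.IsAlgebraic.isSeparable_of_perfectField
  exact .of_algebraicIndependent_of_isSeparable hs.1

/-- dual numbers, to be given a twisted algebra structure -/
def Tw (K : Type u) [Field K] : Type u := TrivSqZeroExt K K

instance (K : Type u) [Field K] : CommRing (Tw K) :=
  inferInstanceAs (CommRing (TrivSqZeroExt K K))

def Tw.mk {K : Type u} [Field K] (a b : K) : Tw K := (a, b)
def Tw.fs {K : Type u} [Field K] (x : Tw K) : K := Prod.fst x
def Tw.sn {K : Type u} [Field K] (x : Tw K) : K := Prod.snd x

lemma Tw.ext {K : Type u} [Field K] {x y : Tw K} (h1 : x.fs = y.fs) (h2 : x.sn = y.sn) : x = y :=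
  Prod.ext h1 h2

lemma Tw.fs_mul {K : Type u} [Field K] (x y : Tw K) : (x * y).fs = x.fs * y.fs := rfl
lemma Tw.fs_add {K : Type u} [Field K] (x y : Tw K) : (x + y).fs = x.fs + y.fs := rfl
lemma Tw.sn_add {K : Type u} [Field K] (x y : Tw K) : (x + y).sn = x.sn + y.sn := rfl
lemma Tw.sn_mul {K : Type u} [Field K] (x y : Tw K) :
    (x * y).sn = x.fs * y.sn + y.fs * x.sn := by
  change x.fs * y.sn + x.sn * y.fs = _
  ring

lemma ext_of_smooth {R K : Type u} [CommRing R] [Field K] [Algebra R K]
    [Algebra.FormallySmooth R K] (d : R → K) (ha : ∀ x y, d (x + y) = d x + d y)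
    (hm : ∀ x y, d (x * y) = algebraMap R K x * d y + algebraMap R K y * d x) :
    ∃ D : Derivation ℤ K K, ∀ x, D (algebraMap R K x) = d x := by
  have d0 : d 0 = 0 := by simpa using ha 0 0
  have d1 : d 1 = 0 := by simpa using hm 1 1
  let φ : R →+* Tw K :=
    { toFun := fun x => Tw.mk (algebraMap R K x) (d x)
      map_one' := Tw.ext (map_one _) d1
      map_zero' := Tw.ext (map_zero _) d0
      map_add' := fun x y => Tw.ext (map_add _ _ _) (ha x y)
      map_mul' := fun x y => Tw.ext (map_mul _ _ _) ((hm x y).trans (Tw.sn_mul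
        (Tw.mk (algebraMap R K x) (d x)) (Tw.mk (algebraMap R K y) (d y))).symm) }
  let _ : Algebra R (Tw K) := φ.toAlgebra
  let g : Tw K →ₐ[R] K :=
    { toFun := Tw.fs
      map_one' := rfl
      map_zero' := rfl
      map_add' := Tw.fs_add
      map_mul' := Tw.fs_mul
      commutes' := fun r => rfl }
  have hg : Function.Surjective g := fun x => ⟨Tw.mk x 0, rfl⟩
  have hn : IsNilpotent (RingHom.ker (g : Tw K →+* K)) := by
    refine ⟨2, ?_⟩
    rw [pow_two, Ideal.zero_eq_bot, eq_bot_iff, Ideal.mul_le]
    intro x hx y hy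
    have hx' : x.fs = 0 := hx
    have hy' : y.fs = 0 := hy
    rw [Ideal.mem_bot]
    refine Tw.ext ?_ ?_
    · rw [Tw.fs_mul, hx', zero_mul]; rfl
    · rw [Tw.sn_mul, hx', hy', zero_mul, zero_mul, add_zero]; rfl
  let ψ := Algebra.FormallySmooth.liftOfSurjective (AlgHom.id R K) g hg hn
  have hψ : ∀ x, (ψ x).fs = x := fun x =>
    Algebra.FormallySmooth.liftOfSurjective_apply (AlgHom.id R K) g hg hn x
  let s : K →+ K :=
    { toFun := fun x => (ψ x).sn
      map_zero' := by rw [map_zero]; rfl
      map_add' := fun x y => by rw [map_add]; rfl }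
  refine ⟨Derivation.mk' s.toIntLinearMap fun x y => ?_, fun x => ?_⟩
  · change (ψ (x * y)).sn = x * (ψ y).sn + y * (ψ x).sn
    rw [map_mul, Tw.sn_mul, hψ, hψ]
  · change (ψ (algebraMap R K x)).sn = d x
    rw [AlgHom.commutes]; rfl

variable {K : Type u} [Field K] [CharZero K]

/-- a derivation on a subfield extends to the field -/
lemma ext_sub (E : Subfield K) (d : K → K) (ha : ∀ x ∈ E, ∀ y ∈ E, d (x + y) = d x + d y)
    (hm : ∀ x ∈ E, ∀ y ∈ E, d (x * y) = x * d y + y * d x) :
    ∃ D : Derivation ℤ K K, ∀ x ∈ E, D x = d x := by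
  have := fs_field E K
  obtain ⟨D, hD⟩ := ext_of_smooth (R := E) (K := K) (fun x => d x.1)
    (fun x y => ha _ x.2 _ y.2) (fun x y => hm _ x.2 _ y.2)
  exact ⟨D, fun x hx => hD ⟨x, hx⟩⟩

/-- a derivation which kills a subfield and sends a transcendental element to one -/
lemma ext_trans (E : Subfield K) {b : K} (hb : Transcendental E b) :
    ∃ D : Derivation ℤ K K, (∀ x ∈ E, D x = 0) ∧ D b = 1 := by
  let _ : Algebra E[X] K := (aeval b : E[X] →ₐ[E] K).toRingHom.toAlgebra
  have inj : Function.Injective (algebraMap E[X] K) := transcendental_iff_injective.1 hb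
  let _ : Algebra (FractionRing E[X]) K := (IsFractionRing.lift inj).toAlgebra
  have : IsScalarTower E[X] (FractionRing E[X]) K :=
    .of_algebraMap_eq fun p => (IsFractionRing.lift_algebraMap inj p).symm
  have : CharZero (FractionRing E[X]) :=
    charZero_of_injective_algebraMap (IsFractionRing.injective E[X] (FractionRing E[X]))
  have h1 := fs_field (FractionRing E[X]) K
  have h2 : Algebra.FormallySmooth E[X] (FractionRing E[X]) :=
    .of_isLocalization (nonZeroDivisors _)
  have h3 : Algebra.FormallySmooth E[X] K := .comp _ (FractionRing E[X]) _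
  obtain ⟨D, hD⟩ := ext_of_smooth (R := E[X]) (K := K) (fun p => aeval b (derivative p))
    (fun x y => by simp) (fun x y => by
      change _ = aeval b x * _ + aeval b y * _
      simp [derivative_mul]; ring)
  refine ⟨D, fun x hx => ?_, ?_⟩
  · have := hD (C ⟨x, hx⟩)
    change D (aeval b (C (⟨x, hx⟩ : E))) = _ at this
    rw [aeval_C, derivative_C, map_zero] at this
    exact this
  · have := hD X
    change D (aeval b (X : E[X])) = _ at this
    simpa using this

end

end Pool.Agent.Lib.MP_7b66ee_ag.Kob
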