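import Pool.Agent.Lib.MP_7b66ee_ag.Kob.DerA

/-! Bounded derivations stay bounded on algebraic extensions in residue characteristic zero. -/

namespace Pool.Agent.Lib.MP_7b66ee_ag.Kob

open Polynomial IsUltrametricDist Finset
open scoped IntermediateField

universe u

noncomputable section

variable {K : Type u} [NormedField K] [IsUltrametricDist K]

lemma nsub_le (x y : K) : ‖x - y‖ ≤ max ‖x‖ ‖y‖ := by
  simpa [sub_eq_add_neg] using norm_add_le_max x (-y)

lemma neq_of_sub {x y : K} (h : ‖x - y‖ < ‖x‖) : ‖y‖ = ‖x‖ := by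
  by_contra hc
  have := norm_add_eq_max_of_norm_ne_norm (x := x) (y := -y) (by simpa using Ne.symm hc)
  rw [← sub_eq_add_neg] at this
  exact absurd (this ▸ le_max_left _ _ : ‖x‖ ≤ ‖x - y‖) (not_le.2 h)

lemma int_le_one (E : Subfield K) (hE : ∀ e ∈ E, ‖e‖ ≤ 1) {x : K} (hx : IsIntegral E x) :
    ‖x‖ ≤ 1 := by
  by_contra hc
  push Not at hc
  obtain ⟨p, hp, h0⟩ := hx
  rw [← aeval_def, aeval_eq_sum_range, sum_range_succ, hp.coeff_natDegree, one_smul] at h0
  rcases Nat.eq_zero_or_pos p.natDegree with e | e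
  · simp [e] at h0
  have h1 : ‖∑ i ∈ range p.natDegree, p.coeff i • x ^ i‖ ≤ ‖x‖ ^ (p.natDegree - 1) := by
    refine norm_sum_le_of_forall_le_of_nonneg (by positivity) fun i hi => ?_
    change ‖(p.coeff i).1 * x ^ i‖ ≤ _
    rw [norm_mul, norm_pow]
    refine (mul_le_of_le_one_left (by positivity) (hE _ (p.coeff i).2)).trans ?_
    exact pow_le_pow_right₀ hc.le (by have := mem_range.1 hi; omega)
  rw [eq_neg_of_add_eq_zero_left h0, norm_neg, norm_pow] at h1
  exact absurd h1 (not_le.2 (pow_lt_pow_right₀ hc (by omega)))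

lemma conj_norm [CompleteSpace K] (E : Subfield K) (hE : IsClosed (E : Set K)) {x y : K}
    (hx : IsIntegral E x) (h : IsConjRoot E x y) : ‖x‖ = ‖y‖ := by
  have hy := h.isIntegral hx
  by_cases ht : ∃ e ∈ E, 1 < ‖e‖
  · obtain ⟨e, he, he'⟩ := ht
    let _ : NontriviallyNormedField E :=
      { (inferInstance : NormedField E) with non_trivial := ⟨⟨e, he⟩, he'⟩ }
    have : CompleteSpace E := hE.completeSpace_coe
    have : IsUltrametricDist E := IsUltrametricDist.subtype _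
    let L := algebraicClosure E K
    let _ : NormedAlgebra E L :=
      { (inferInstance : Algebra E L) with
        norm_smul_le := fun a b => le_of_eq (norm_mul (a : K) (b : K)) }
    have key : ∀ z (hz : IsIntegral E z), ‖z‖ = spectralValue (minpoly E z) := fun z hz => by
      have := NormedAlgebra.norm_eq_spectralNorm E (L := L)
        ⟨z, mem_algebraicClosure_iff'.2 hz⟩
      rw [spectralNorm, IntermediateField.minpoly_eq] at this
      exact this
    rw [key x hx, key y hy, h]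
  · push Not at ht
    have key : ∀ z : K, IsIntegral E z → z ≠ 0 → ‖z‖ = 1 := fun z hz h0 => by
      have a := int_le_one E ht hz
      have b := int_le_one E ht (x := z⁻¹) hz.isAlgebraic.inv.isIntegral
      rw [norm_inv, inv_le_one₀ (norm_pos_iff.2 h0)] at b
      exact le_antisymm a b
    by_cases h0 : x = 0
    · subst h0; rw [h.eq_zero]
    · rw [key x hx h0, key y hy (IsConjRoot.ne_zero h0 h)]

lemma pow_sub_le {x y : K} {ρ : ℝ} (hx : ‖x‖ ≤ ρ) (hy : ‖y‖ ≤ ρ) (i : ℕ) :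
    ‖x ^ i - y ^ i‖ * ρ ≤ ‖x - y‖ * ρ ^ i := by
  have h0 : 0 ≤ ρ := (norm_nonneg _).trans hx
  induction i with
  | zero => simp
  | succ i ih =>
    rw [show x ^ (i + 1) - y ^ (i + 1) = x * (x ^ i - y ^ i) + (x - y) * y ^ i by ring]
    refine (mul_le_mul_of_nonneg_right (norm_add_le_max _ _) h0).trans ?_
    rw [max_mul_of_nonneg _ _ h0, norm_mul, norm_mul, norm_pow]
    refine max_le ?_ ?_
    · calc ‖x‖ * ‖x ^ i - y ^ i‖ * ρ = ‖x‖ * (‖x ^ i - y ^ i‖ * ρ) := by ring
        _ ≤ ρ * (‖x - y‖ * ρ ^ i) := mul_le_mul hx ih (by positivity) h0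
        _ = _ := by ring
    · calc ‖x - y‖ * ‖y‖ ^ i * ρ ≤ ‖x - y‖ * ρ ^ i * ρ := by gcongr
        _ = _ := by ring

omit [IsUltrametricDist K] in
lemma close_root [IsAlgClosed K] (Q : K[X]) (β : K) {ρ : ℝ} (hρ : 0 ≤ ρ)
    (h : ‖Q.eval β‖ < ‖Q.leadingCoeff‖ * ρ ^ Q.natDegree) : ∃ r, Q.eval r = 0 ∧ ‖β - r‖ < ρ := by
  by_contra hc
  push Not at hc
  have hs := IsAlgClosed.splits Q
  refine absurd h (not_lt.2 ?_)
  rw [hs.eval_eq_prod_roots β, norm_mul, hs.natDegree_eq_card_roots]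
  refine mul_le_mul_of_nonneg_left ?_ (norm_nonneg _)
  have : ∀ T : Multiset K, (∀ r ∈ T, ρ ≤ ‖β - r‖) →
      ρ ^ T.card ≤ ‖(T.map fun r => β - r).prod‖ := fun T => by
    induction T using Multiset.induction_on with
    | empty => simp
    | cons a T ih =>
      intro H
      rw [Multiset.map_cons, Multiset.prod_cons, norm_mul, Multiset.card_cons, pow_succ']
      exact mul_le_mul (H a (Multiset.mem_cons_self _ _))
        (ih fun r hr => H r (Multiset.mem_cons_of_mem hr)) (by positivity) (norm_nonneg _)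
  exact this _ fun r hr => hc r (isRoot_of_mem_roots hr)

/-- the powers of b below l are orthogonal over S -/
def Orth (S : Set K) (b : K) (l : ℕ) : Prop :=
  ∀ c : ℕ → K, (∀ i, c i ∈ S) → ∀ j < l, ‖c j‖ * ‖b‖ ^ j ≤ ‖∑ i ∈ range l, c i * b ^ i‖

lemma Orth.near {S : Set K} {b b' : K} {l : ℕ} (h : Orth S b l) (hb : ‖b - b'‖ < ‖b‖) :
    Orth S b' l := fun c hc j hj => by
  have e := neq_of_sub hb
  have b0 : 0 < ‖b‖ := (norm_nonneg _).trans_lt hb
  rw [e]
  refine (h c hc j hj).trans ?_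
  set A := ∑ i ∈ range l, c i * b ^ i
  rcases (norm_nonneg A).eq_or_lt with A0 | A0
  · rw [← A0]; exact norm_nonneg _
  refine (neq_of_sub ?_).ge
  rw [← sum_sub_distrib]
  refine lt_of_le_of_lt (norm_sum_le_of_forall_le_of_nonneg (C := ‖b - b'‖ / ‖b‖ * ‖A‖)
    (by positivity) fun i hi => ?_) (mul_lt_of_lt_one_left A0 ((div_lt_one b0).2 hb))
  rw [← mul_sub, norm_mul, div_mul_eq_mul_div, le_div_iff₀ b0, mul_assoc]
  refine (mul_le_mul_of_nonneg_left (pow_sub_le le_rfl e.le i) (norm_nonneg _)).trans ?_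
  rw [mul_left_comm]
  exact mul_le_mul_of_nonneg_left (h c hc i (mem_range.1 hi)) (norm_nonneg _)

lemma D_term (D : Derivation ℤ K K) {C : ℝ} {c b : K} (hc : ‖D c‖ ≤ C * ‖c‖)
    (hb : ‖D b‖ ≤ C * ‖b‖) : ‖D (c * b)‖ ≤ C * ‖c * b‖ := by
  rw [D.leibniz, smul_eq_mul, smul_eq_mul, norm_mul]
  refine (norm_add_le_max _ _).trans (max_le ?_ ?_) <;> rw [norm_mul]
  · exact (mul_le_mul_of_nonneg_left hb (norm_nonneg _)).trans_eq (by ring)
  · exact (mul_le_mul_of_nonneg_left hc (norm_nonneg _)).trans_eq (by ring)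

lemma D_pow (D : Derivation ℤ K K) {C : ℝ} (hC : 0 ≤ C) {b : K} (hb : ‖D b‖ ≤ C * ‖b‖) (i : ℕ) :
    ‖D (b ^ i)‖ ≤ C * ‖b ^ i‖ := by
  induction i with
  | zero => simpa using hC
  | succ i ih => rw [pow_succ]; exact D_term D ih hb

/-- one more algebraic element -/
lemma alg_step [IsAlgClosed K] (hK : ∀ m : ℕ, m ≠ 0 → ‖(m : K)‖ = 1) {k : Type u} [Field k]
    [Algebra k K] (D : Derivation ℤ K K) {C : ℝ} (hC : 0 ≤ C)
    (hD : ∀ e : k, ‖D (algebraMap k K e)‖ ≤ C * ‖algebraMap k K e‖) {b : K}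
    (hb : IsIntegral k b) (b0 : b ≠ 0) :
    ∃ b' : K, ‖b - b'‖ < ‖b‖ ∧ IsIntegral k b' ∧ ∀ x ∈ k⟮b'⟯, ‖D x‖ ≤ C * ‖x‖ := by
  classical
  set S : Set K := Set.range (algebraMap k K)
  have ρ0 : 0 < ‖b‖ := norm_pos_iff.2 b0
  have hex : ∃ l, ¬Orth S b (l + 1) := by
    refine ⟨(minpoly k b).natDegree, fun h => ?_⟩
    have := h (fun i => algebraMap k K ((minpoly k b).coeff i)) (fun i => ⟨_, rfl⟩) _
      (Nat.lt_succ_self _)
    have h0 := minpoly.aeval k b
    rw [aeval_eq_sum_range] at h0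
    simp only [Algebra.smul_def] at h0
    rw [h0, (minpoly.monic hb).coeff_natDegree, map_one, norm_one, one_mul, norm_zero] at this
    exact absurd this (not_le.2 (by positivity))
  set l := Nat.find hex with hl
  have hn : ¬Orth S b (l + 1) := Nat.find_spec hex
  have l0 : l ≠ 0 := fun e => hn (by
    rw [e]
    intro c _ j hj
    obtain rfl : j = 0 := by omega
    simp)
  obtain ⟨m, hm⟩ := Nat.exists_eq_succ_of_ne_zero l0
  have ho : Orth S b l := by
    have := Nat.find_min hex (m := m) (by omega)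
    rw [hm]; exact not_not.1 this
  unfold Orth at hn
  push Not at hn
  obtain ⟨c, hc, j, hj, hlt⟩ := hn
  choose γ hγ using hc
  rw [sum_range_succ] at hlt
  have hj' : ‖c j‖ * ‖b‖ ^ j ≤ max ‖∑ i ∈ range l, c i * b ^ i‖ ‖c l * b ^ l‖ := by
    rcases (Nat.lt_succ_iff.1 hj).eq_or_lt with e | e
    · rw [e, norm_mul, norm_pow]; exact le_max_right _ _
    · exact le_max_of_le_left (ho c (fun i => ⟨_, hγ i⟩) j e)
  have heq : ‖∑ i ∈ range l, c i * b ^ i‖ = ‖c l * b ^ l‖ :=
    norm_eq_of_add_norm_lt_max (hlt.trans_le hj')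
  rw [heq, max_self, norm_mul, norm_pow] at hj'
  have hall : ∀ i < l + 1, ‖c i‖ * ‖b‖ ^ i ≤ ‖c l‖ * ‖b‖ ^ l := fun i hi => by
    rcases (Nat.lt_succ_iff.1 hi).eq_or_lt with e | e
    · rw [e]
    · simpa [heq] using ho c (fun i => ⟨_, hγ i⟩) i e
  have hlt' := hlt.trans_le hj'
  have cl0 : c l ≠ 0 := fun e => by
    refine absurd hlt' (not_lt.2 (le_trans (le_of_eq ?_) (norm_nonneg _)))
    rw [e, norm_zero, zero_mul]
  have γ0 : γ l ≠ 0 := fun e => cl0 (by rw [← hγ, e, map_zero])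
  let Q : k[X] := ∑ i ∈ range (l + 1), monomial i (γ i)
  have Qc : ∀ i, Q.coeff i = if i < l + 1 then γ i else 0 := fun i => by
    simp [Q, coeff_monomial]
  have Qd : Q.natDegree = l := by
    refine natDegree_eq_of_le_of_coeff_ne_zero (natDegree_le_iff_coeff_eq_zero.2 fun i hi => ?_) ?_
    · rw [Qc, if_neg (by omega)]
    · rw [Qc, if_pos (by omega)]; exact γ0
  have Ql : Q.leadingCoeff = γ l := by rw [leadingCoeff, Qd, Qc, if_pos (by omega)]
  have Qe : ∀ x : K, aeval x Q = ∑ i ∈ range (l + 1), c i * x ^ i := fun x => by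
    simp [Q, aeval_monomial, hγ]
  have Q0 : Q ≠ 0 := fun e => γ0 (by rw [← Ql, e, leadingCoeff_zero])
  obtain ⟨b', hb', hbb⟩ := close_root (Q.map (algebraMap k K)) b ρ0.le (by
    rw [eval_map_algebraMap, Qe, sum_range_succ, leadingCoeff_map, natDegree_map, Ql, Qd, hγ]
    exact hlt')
  rw [eval_map_algebraMap] at hb'
  have hi' : IsIntegral k b' := IsAlgebraic.isIntegral ⟨Q, Q0, hb'⟩
  have ho' := ho.near hbb
  have nb := neq_of_sub hbb
  have hDc : ∀ i, ‖D (c i)‖ ≤ C * ‖c i‖ := fun i => hγ i ▸ hD (γ i)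
  have hDb : ‖D b'‖ ≤ C * ‖b'‖ := by
    have h1 : (0 : K) = ∑ i ∈ range (l + 1), b' ^ i * D (c i) +
        (∑ i ∈ range l, c (i + 1) * ((i + 1 : ℕ) : K) * b' ^ i) * D b' := by
      have := congrArg D hb'
      rw [Qe, map_zero, map_sum] at this
      rw [← this]
      simp only [D.leibniz, D.leibniz_pow, smul_eq_mul, nsmul_eq_mul, sum_add_distrib]
      rw [add_comm, sum_range_succ' (fun i => c i * ((i : K) * (b' ^ (i - 1) * D b'))), sum_mul]
      simp [mul_assoc]
    have h2 := ho' (fun i => c (i + 1) * ((i + 1 : ℕ) : K))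
      (fun i => ⟨γ (i + 1) * ((i + 1 : ℕ) : k), by rw [map_mul, hγ, map_natCast]⟩) m (by omega)
    have h3 : ‖∑ i ∈ range (l + 1), b' ^ i * D (c i)‖ ≤ C * (‖c l‖ * ‖b‖ ^ l) := by
      refine norm_sum_le_of_forall_le_of_nonneg (by positivity) fun i hi => ?_
      rw [norm_mul, norm_pow, nb]
      calc ‖b‖ ^ i * ‖D (c i)‖ ≤ ‖b‖ ^ i * (C * ‖c i‖) := by gcongr; exact hDc i
        _ = C * (‖c i‖ * ‖b‖ ^ i) := by ring
        _ ≤ _ := mul_le_mul_of_nonneg_left (hall i (mem_range.1 hi)) hC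
    rw [eq_neg_of_add_eq_zero_left h1.symm, norm_neg, norm_mul] at h3
    rw [norm_mul, hK _ (by omega), mul_one, nb, show m + 1 = l by omega] at h2
    have h4 := (mul_le_mul_of_nonneg_right h2 (norm_nonneg (D b'))).trans h3
    have h5 : 0 < ‖c l‖ * ‖b‖ ^ m := mul_pos (norm_pos_iff.2 cl0) (by positivity)
    rw [nb]
    refine le_of_mul_le_mul_left (h4.trans_eq ?_) h5
    rw [hm, pow_succ]; ring
  refine ⟨b', hbb, hi', fun x hx => ?_⟩
  rw [← IntermediateField.mem_toSubalgebra,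
    IntermediateField.adjoin_simple_toSubalgebra_of_isAlgebraic hi'.isAlgebraic,
    Algebra.adjoin_singleton_eq_range_aeval] at hx
  obtain ⟨p, rfl⟩ := hx
  have hp : aeval b' p = aeval b' (p % Q) := by
    conv_lhs => rw [← EuclideanDomain.div_add_mod p Q, map_add, map_mul, hb', zero_mul, zero_add]
  have hd : (p % Q).natDegree < l := by
    rw [← Qd]; exact natDegree_mod_lt _ (by omega)
  change ‖D (aeval b' p)‖ ≤ C * ‖aeval b' p‖
  rw [hp, aeval_eq_sum_range' hd]
  simp only [Algebra.smul_def]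
  rw [map_sum]
  refine norm_sum_le_of_forall_le_of_nonneg (by positivity) fun i hi => ?_
  refine (D_term D (hD _) (D_pow D hC hDb i)).trans (mul_le_mul_of_nonneg_left ?_ hC)
  rw [norm_mul, norm_pow]
  exact ho' _ (fun i => ⟨_, rfl⟩) i (mem_range.1 hi)

/-- a best approximation of an algebraic element in the ground field -/
lemma best_approx [IsAlgClosed K] (hK : ∀ m : ℕ, m ≠ 0 → ‖(m : K)‖ = 1) {k : Type u} [Field k]
    [Algebra k K] {b : K} (hb : IsIntegral k b)
    (hc : ∀ x y : K, IsIntegral k x → IsConjRoot k x y → ‖x‖ = ‖y‖) :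
    ∃ e₀ : k, ∀ e : k, ‖b - algebraMap k K e₀‖ ≤ ‖b - algebraMap k K e‖ := by
  set P := minpoly k b
  have hm := minpoly.monic hb
  have hs := IsAlgClosed.splits (P.map (algebraMap k K))
  have d0 : P.natDegree ≠ 0 := (minpoly.natDegree_pos hb).ne'
  have m0 : (P.natDegree : K) ≠ 0 := fun e => by simpa [e] using hK _ d0
  have m0' : (P.natDegree : k) ≠ 0 := fun e => m0 (by rw [← map_natCast (algebraMap k K), e, map_zero])
  set T := (P.map (algebraMap k K)).roots
  have hT : T.card = P.natDegree := by rw [← hs.natDegree_eq_card_roots, natDegree_map]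
  have hsum : algebraMap k K P.nextCoeff = -T.sum := by
    rw [← nextCoeff_map (algebraMap k K).injective]
    exact hs.nextCoeff_eq_neg_sum_roots_of_monic (hm.map _)
  refine ⟨-P.nextCoeff / P.natDegree, fun e => ?_⟩
  set e₀ := algebraMap k K (-P.nextCoeff / P.natDegree) with he₀
  have h1 : (P.natDegree : K) * (e₀ - algebraMap k K e) =
      (T.map fun r => r - algebraMap k K e).sum := by
    rw [Multiset.sum_map_sub, Multiset.map_id', Multiset.map_const', Multiset.sum_replicate, hT,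
      he₀, map_div₀, map_neg, hsum, map_natCast, nsmul_eq_mul]
    field_simp
  have h2 : ‖(T.map fun r => r - algebraMap k K e).sum‖ ≤ ‖b - algebraMap k K e‖ := by
    have : ∀ U : Multiset K, (∀ r ∈ U, ‖r - algebraMap k K e‖ ≤ ‖b - algebraMap k K e‖) →
        ‖(U.map fun r => r - algebraMap k K e).sum‖ ≤ ‖b - algebraMap k K e‖ := fun U => by
      induction U using Multiset.induction_on with
      | empty => simp
      | cons a U ih =>
        intro H
        rw [Multiset.map_cons, Multiset.sum_cons]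
        exact (norm_add_le_max _ _).trans (max_le (H a (Multiset.mem_cons_self _ _))
          (ih fun r hr => H r (Multiset.mem_cons_of_mem hr)))
    refine this _ fun r hr => (hc _ _ (hb.sub (isIntegral_algebraMap)) ?_).ge
    refine IsConjRoot.sub_algebraMap _ (isConjRoot_of_aeval_eq_zero hb ?_)
    rw [← eval_map_algebraMap]
    exact isRoot_of_mem_roots hr
  rw [← h1, norm_mul, hK _ d0, one_mul] at h2
  rw [show b - e₀ = (b - algebraMap k K e) - (e₀ - algebraMap k K e) by ring]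
  exact (nsub_le _ _).trans (max_le le_rfl h2)

theorem alg_bound [IsAlgClosed K] [CompleteSpace K] (hK : ∀ m : ℕ, m ≠ 0 → ‖(m : K)‖ = 1)
    (E : Subfield K) (hE : IsClosed (E : Set K)) (D : Derivation ℤ K K) {C : ℝ} (hC : 0 ≤ C)
    (hD : ∀ e ∈ E, ‖D e‖ ≤ C * ‖e‖) {x : K} (hx : IsAlgebraic E x) : ‖D x‖ ≤ C * ‖x‖ := by
  let S : Set (IntermediateField E K) :=
    {L | L ≤ algebraicClosure E K ∧ ∀ y ∈ L, ‖D y‖ ≤ C * ‖y‖}
  obtain ⟨L, -, hL⟩ := zorn_le_nonempty₀ S (fun c hcS hc y hy => by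
    have : Nonempty c := ⟨⟨y, hy⟩⟩
    refine ⟨⨆ i : c, i.1, ⟨iSup_le fun i => (hcS i.2).1, fun z hz => ?_⟩,
      fun z hz => le_iSup (fun i : c => i.1) ⟨z, hz⟩⟩
    rw [← SetLike.mem_coe, IntermediateField.coe_iSup_of_directed hc.directedOn.directed_val,
      Set.mem_iUnion] at hz
    obtain ⟨i, hi⟩ := hz
    exact (hcS i.2).2 z hi) ⊥ ⟨bot_le, fun y hy => by
      obtain ⟨e, rfl⟩ := IntermediateField.mem_bot.1 hy
      exact hD _ e.2⟩
  refine hL.1.2 x (by_contra fun hxL => ?_)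
  have alg : Algebra.IsAlgebraic E L := le_algebraicClosure_iff .. |>.1 hL.1.1
  have hi : IsIntegral L x := hx.isIntegral.tower_top
  obtain ⟨e₀, he₀⟩ := best_approx hK hi fun a b ha hab =>
    have ha' : IsIntegral E a := isIntegral_trans a ha
    conj_norm E hE ha' (IsConjRoot.of_isScalarTower ha' hab)
  have b0 : x - algebraMap L K e₀ ≠ 0 := fun e => hxL (sub_eq_zero.1 e ▸ e₀.2)
  obtain ⟨b', h1, h2, h3⟩ := alg_step hK D hC (fun e : L => hL.1.2 _ e.2)
    (hi.sub isIntegral_algebraMap) b0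
  have hle : L ≤ (L⟮b'⟯).restrictScalars E := fun y hy =>
    (L⟮b'⟯).algebraMap_mem ⟨y, hy⟩
  have hmem : (L⟮b'⟯).restrictScalars E ∈ S := ⟨fun y hy => by
    have := IntermediateField.isAlgebraic_adjoin_simple h2
    have h4 : IsIntegral L y :=
      (IntermediateField.isIntegral_iff (x := (⟨y, hy⟩ : L⟮b'⟯))).1 (Algebra.IsIntegral.isIntegral _)
    exact mem_algebraicClosure_iff'.2 (isIntegral_trans y h4), h3⟩
  have hb' : b' ∈ L := hL.2 hmem hle (IntermediateField.mem_adjoin_simple_self L b')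
  have := he₀ (e₀ + ⟨b', hb'⟩)
  rw [map_add, ← sub_sub] at this
  exact absurd h1 (not_lt.2 this)

end

end Pool.Agent.Lib.MP_7b66ee_ag.Kob
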