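import Pool.Agent.Lib.MP_7b66ee_ag.Kob.DerB

/-! Existence of bounded derivations in residue characteristic zero. -/

namespace Pool.Agent.Lib.MP_7b66ee_ag.Kob

open Polynomial IsUltrametricDist Filter Topology
open scoped IntermediateField

universe u

noncomputable section

variable {K : Type u} [NormedField K]

/-- the derivation is bounded by C on E -/
def Bd (E : Subfield K) (D : Derivation ℤ K K) (C : ℝ) : Prop := ∀ x ∈ E, ‖D x‖ ≤ C * ‖x‖

lemma clo_step [CharZero K] [CompleteSpace K] {E : Subfield K} {D : Derivation ℤ K K} {C : ℝ}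
    (h : Bd E D C) : ∃ D' : Derivation ℤ K K, (∀ x ∈ E, D' x = D x) ∧
      Bd E.topologicalClosure D' C := by
  let Γ₀ : Set (K × K) := {p | p.1 ∈ E ∧ p.2 = D p.1}
  let Γ := closure Γ₀
  have hb : ∀ p ∈ Γ, ‖p.2‖ ≤ C * ‖p.1‖ := fun p hp =>
    closure_minimal (t := {p : K × K | ‖p.2‖ ≤ C * ‖p.1‖})
      (fun q hq => by have := h _ hq.1; rw [← hq.2] at this; exact this)
      (isClosed_le (by fun_prop) (by fun_prop)) hp
  have hs : ∀ p ∈ Γ, ∀ q ∈ Γ, p - q ∈ Γ := fun p hp q hq =>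
    map_mem_closure₂ (f := fun p q : K × K => p - q) (by fun_prop) hp hq fun a ha b hb =>
      ⟨sub_mem ha.1 hb.1, by simp [ha.2, hb.2]⟩
  have ha : ∀ p ∈ Γ, ∀ q ∈ Γ, p + q ∈ Γ := fun p hp q hq =>
    map_mem_closure₂ (f := fun p q : K × K => p + q) (by fun_prop) hp hq fun a ha b hb =>
      ⟨add_mem ha.1 hb.1, by simp [ha.2, hb.2]⟩
  have hm : ∀ p ∈ Γ, ∀ q ∈ Γ, (p.1 * q.1, p.1 * q.2 + q.1 * p.2) ∈ Γ := fun p hp q hq =>
    map_mem_closure₂ (f := fun p q : K × K => (p.1 * q.1, p.1 * q.2 + q.1 * p.2)) (by fun_prop)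
      hp hq fun a ha b hb => ⟨mul_mem ha.1 hb.1, by simp [ha.2, hb.2]⟩
  have hu : ∀ x y y', (x, y) ∈ Γ → (x, y') ∈ Γ → y = y' := fun x y y' h1 h2 => by
    have := hb _ (hs _ h1 _ h2)
    simpa [sub_eq_zero] using this
  have he : ∀ x, ∃ y, x ∈ E.topologicalClosure → (x, y) ∈ Γ := fun x => by
    by_cases hx : x ∈ E.topologicalClosure
    · obtain ⟨e, he, ht⟩ := mem_closure_iff_seq_limit.1 (show x ∈ closure (E : Set K) from hx)
      have hc : CauchySeq fun n => D (e n) := by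
        have c1 := ht.cauchySeq
        rw [Metric.cauchySeq_iff] at c1 ⊢
        intro ε hε
        obtain ⟨N, hN⟩ := c1 (ε / (|C| + 1)) (by positivity)
        refine ⟨N, fun m hm n hn => ?_⟩
        have h1 := hN m hm n hn
        rw [dist_eq_norm] at h1 ⊢
        rw [← map_sub]
        refine (h _ (sub_mem (he m) (he n))).trans_lt ?_
        rw [lt_div_iff₀ (by positivity)] at h1
        nlinarith [le_abs_self C, norm_nonneg (e m - e n)]
      obtain ⟨y, hy⟩ := cauchySeq_tendsto_of_complete hc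
      exact ⟨y, fun _ => mem_closure_of_tendsto (ht.prodMk_nhds hy)
        (.of_forall fun n => ⟨he n, rfl⟩)⟩
    · exact ⟨0, fun h => absurd h hx⟩
  choose d hd using he
  obtain ⟨D', hD'⟩ := ext_sub E.topologicalClosure d
    (fun x hx y hy => hu _ _ _ (hd _ (add_mem hx hy)) (ha _ (hd x hx) _ (hd y hy)))
    (fun x hx y hy => hu _ _ _ (hd _ (mul_mem hx hy)) (hm _ (hd x hx) _ (hd y hy)))
  refine ⟨D', fun x hx => ?_, fun x hx => ?_⟩
  · have hx' := E.le_topologicalClosure hx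
    rw [hD' x hx']
    exact hu _ _ _ (hd x hx') (subset_closure ⟨hx, rfl⟩)
  · rw [hD' x hx]; exact hb _ (hd x hx)

/-- the algebraic closure of a subfield -/
def acl (E : Subfield K) : Subfield K := (algebraicClosure E K).toSubfield

lemma mem_acl {E : Subfield K} {x : K} : x ∈ acl E ↔ IsAlgebraic E x :=
  mem_algebraicClosure_iff

lemma le_acl (E : Subfield K) : E ≤ acl E := fun x hx =>
  mem_acl.2 (isAlgebraic_algebraMap (⟨x, hx⟩ : E))

lemma acl_acl {E : Subfield K} {x : K} (h : IsAlgebraic (acl E) x) : x ∈ acl E := by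
  have h' : IsAlgebraic (algebraicClosure E K) x := h
  exact mem_acl.2 (isIntegral_trans x h'.isIntegral).isAlgebraic

lemma D_inv (D : Derivation ℤ K K) {C : ℝ} {b : K} (hb : ‖D b‖ ≤ C * ‖b‖) :
    ‖D b⁻¹‖ ≤ C * ‖b⁻¹‖ := by
  by_cases b0 : b = 0
  · simp [b0]
  have := norm_pos_iff.2 b0
  rw [D.leibniz_inv, neg_smul, norm_neg, smul_eq_mul, norm_mul, norm_pow, norm_inv]
  refine (mul_le_mul_of_nonneg_left hb (by positivity)).trans_eq ?_
  field_simp

variable [IsUltrametricDist K]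

lemma tr_step [CharZero K] [IsAlgClosed K] {E : Subfield K} {D : Derivation ℤ K K} {C : ℝ}
    (hC : 0 ≤ C) (hE : ∀ x, IsAlgebraic E x → x ∈ E) (h : Bd E D C) {b η : K} (hb : b ∉ E)
    (hη : ∀ e ∈ E, ‖η - D e‖ ≤ C * ‖b - e‖) : ∃ (E' : Subfield K) (D' : Derivation ℤ K K),
      E ≤ E' ∧ b ∈ E' ∧ (∀ x ∈ E, D' x = D x) ∧ D' b = η ∧ Bd E' D' C := by
  obtain ⟨δ, h0, h1⟩ := ext_trans E (b := b) fun ha => hb (hE b ha)
  let D' := D + (η - D b) • δ
  have e1 : ∀ x ∈ E, D' x = D x := fun x hx => by simp [D', h0 x hx]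
  have e2 : D' b = η := by simp [D', h1]
  have key : ∀ p : E[X], ‖D' (aeval b p)‖ ≤ C * ‖aeval b p‖ := fun p => by
    by_cases p0 : p = 0
    · simp [p0]
    have hs := IsAlgClosed.splits (p.map (algebraMap E K))
    rw [← eval_map_algebraMap, hs.eval_eq_prod_roots b, leadingCoeff_map]
    refine D_term D' ((congrArg norm (e1 _ p.leadingCoeff.2)).trans_le
      (h _ p.leadingCoeff.2)) ?_
    have : ∀ T : Multiset K, (∀ r ∈ T, r ∈ E) → ‖D' (T.map fun r => b - r).prod‖ ≤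
        C * ‖(T.map fun r => b - r).prod‖ := fun T => by
      induction T using Multiset.induction_on with
      | empty => simpa using hC
      | cons a T ih =>
        intro H
        have ha := H a (Multiset.mem_cons_self _ _)
        rw [Multiset.map_cons, Multiset.prod_cons]
        refine D_term D' ?_ (ih fun r hr => H r (Multiset.mem_cons_of_mem hr))
        rw [map_sub, e2, e1 a ha]
        exact hη a ha
    refine this _ fun r hr => hE r ⟨p, p0, ?_⟩
    rw [← eval_map_algebraMap]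
    exact isRoot_of_mem_roots hr
  refine ⟨(E⟮b⟯).toSubfield, D', fun x hx => (E⟮b⟯).algebraMap_mem ⟨x, hx⟩,
    IntermediateField.mem_adjoin_simple_self E b, e1, e2, fun x hx => ?_⟩
  obtain ⟨p, q, rfl⟩ := (IntermediateField.mem_adjoin_simple_iff E x).1 hx
  rw [div_eq_mul_inv]
  exact D_term D' (key p) (D_inv D' (key q))

variable [IsAlgClosed K] [CompleteSpace K] (hK : ∀ m : ℕ, m ≠ 0 → ‖(m : K)‖ = 1)
include hK

omit [IsUltrametricDist K] [IsAlgClosed K] [CompleteSpace K] in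
lemma charZero_of : CharZero K :=
  charZero_of_inj_zero fun m hm => by_contra fun h => by simpa [hm] using hK m h

lemma full_step {E : Subfield K} {D : Derivation ℤ K K} {C C' : ℝ} (hC : 0 < C) (hC' : C < C')
    (h : Bd E D C) (b : K) : ∃ (E' : Subfield K) (D' : Derivation ℤ K K),
      E ≤ E' ∧ b ∈ E' ∧ (∀ x ∈ E, D' x = D x) ∧ Bd E' D' C' := by
  have := charZero_of hK
  obtain ⟨D₁, e1, h1⟩ := clo_step h
  have h2 : Bd (acl E.topologicalClosure) D₁ C := fun x hx =>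
    alg_bound hK _ E.isClosed_topologicalClosure D₁ hC.le h1 (mem_acl.1 hx)
  set E₂ := acl E.topologicalClosure
  have l2 : E ≤ E₂ := E.le_topologicalClosure.trans (le_acl _)
  have mono : ∀ {E D}, Bd E D C → Bd (K := K) E D C' := fun h x hx =>
    (h x hx).trans (mul_le_mul_of_nonneg_right hC'.le (norm_nonneg _))
  by_cases hb : b ∈ E₂.topologicalClosure
  · obtain ⟨D₃, e3, h3⟩ := clo_step h2
    exact ⟨_, D₃, l2.trans E₂.le_topologicalClosure, hb,
      fun x hx => (e3 x (l2 hx)).trans (e1 x hx), mono h3⟩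
  have ne : (E₂ : Set K).Nonempty := ⟨0, zero_mem _⟩
  have δ0 : 0 < Metric.infDist b E₂ :=
    (Metric.infDist_pos_iff_notMem_closure ne).1 hb
  obtain ⟨e₀, he₀, hd⟩ := (Metric.infDist_lt_iff ne (x := b)
    (r := C' / C * Metric.infDist b E₂)).1 (lt_mul_of_one_lt_left δ0 ((one_lt_div hC).2 hC'))
  obtain ⟨E', D', l, m, e, -, h'⟩ := tr_step (hC.trans hC').le (fun x hx => acl_acl hx) (mono h2)
    (b := b) (η := D₁ e₀) (fun hh => hb (E₂.le_topologicalClosure hh)) fun e he => by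
      rw [← map_sub]
      refine (h2 _ (sub_mem he₀ he)).trans ?_
      have a1 : Metric.infDist b E₂ ≤ ‖b - e‖ := by
        rw [← dist_eq_norm]; exact Metric.infDist_le_dist_of_mem he
      rw [dist_eq_norm] at hd
      rw [show e₀ - e = (b - e) - (b - e₀) by ring]
      refine (mul_le_mul_of_nonneg_left (nsub_le _ _) hC.le).trans ?_
      rw [mul_max_of_nonneg _ _ hC.le]
      refine max_le (mul_le_mul_of_nonneg_right hC'.le (norm_nonneg _)) ?_
      calc C * ‖b - e₀‖ ≤ C * (C' / C * Metric.infDist b E₂) := by gcongr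
        _ = C' * Metric.infDist b E₂ := by field_simp
        _ ≤ _ := mul_le_mul_of_nonneg_left a1 (hC.trans hC').le
  exact ⟨E', D', l2.trans l, m, fun x hx => (e x (l2 hx)).trans (e1 x hx), h'⟩

lemma tower {E : Subfield K} {D : Derivation ℤ K K} {C : ℝ} (hC : 0 < C) (h : Bd E D C)
    (b : ℕ → K) : ∃ (E' : Subfield K) (D' : Derivation ℤ K K), IsClosed (E' : Set K) ∧
      E ≤ E' ∧ (∀ j, b j ∈ E') ∧ (∀ x ∈ E, D' x = D x) ∧ Bd E' D' (2 * C) := by
  have := charZero_of hK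
  let c : ℕ → ℝ := fun j => C * (2 - (1 / 2) ^ j)
  have c1 : ∀ j, (1 / 2 : ℝ) ^ j ≤ 1 := fun j => pow_le_one₀ (by norm_num) (by norm_num)
  have c0 : ∀ j, 0 < c j := fun j => mul_pos hC (by linarith [c1 j])
  have cl : ∀ j, c j < c (j + 1) := fun j => mul_lt_mul_of_pos_left (by
    have : (0 : ℝ) < (1 / 2) ^ j := by positivity
    rw [pow_succ]; linarith) hC
  have c2 : ∀ j, c j ≤ 2 * C := fun j => by
    have : (0 : ℝ) < (1 / 2) ^ j := by positivity
    simp only [c]; nlinarith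
  let P : ℕ → Type u := fun j => {p : Subfield K × Derivation ℤ K K // Bd p.1 p.2 (c j)}
  have st : ∀ j (p : P j), ∃ q : P (j + 1), p.1.1 ≤ q.1.1 ∧ b j ∈ q.1.1 ∧
      ∀ x ∈ p.1.1, q.1.2 x = p.1.2 x := fun j p => by
    obtain ⟨E', D', a1, a2, a3, a4⟩ := full_step hK (c0 j) (cl j) p.2 (b j)
    exact ⟨⟨(E', D'), a4⟩, a1, a2, a3⟩
  choose nx h1 h2 h3 using st
  have c00 : c 0 = C := by simp only [c]; ring
  let s : ∀ j, P j := fun j => Nat.rec ⟨(E, D), c00 ▸ h⟩ nx j
  have mono : Monotone fun j => (s j).1.1 := monotone_nat_of_le_succ fun j => h1 j (s j)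
  have stab : ∀ i j, i ≤ j → ∀ x ∈ (s i).1.1, (s j).1.2 x = (s i).1.2 x := fun i j hij x hx => by
    induction j, hij using Nat.le_induction with
    | base => rfl
    | succ j hij ih => exact (h3 j (s j) x (mono hij hx)).trans ih
  let F : Subfield K := ⨆ j, (s j).1.1
  have hF : ∀ x, ∃ j, x ∈ F → x ∈ (s j).1.1 := fun x => by
    by_cases hx : x ∈ F
    · obtain ⟨j, hj⟩ := (Subfield.mem_iSup_of_directed mono.directed_le).1 hx
      exact ⟨j, fun _ => hj⟩
    · exact ⟨0, fun h => absurd h hx⟩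
  choose n hn using hF
  have lF : ∀ j, (s j).1.1 ≤ F := fun j => le_iSup (fun j => (s j).1.1) j
  have hd : ∀ j, ∀ x ∈ (s j).1.1, (s (n x)).1.2 x = (s j).1.2 x := fun j x hx => by
    rw [← stab _ _ (le_max_left (n x) j) x (hn x (lF j hx)), stab _ _ (le_max_right (n x) j) x hx]
  have two : ∀ x ∈ F, ∀ y ∈ F, ∃ j, x ∈ (s j).1.1 ∧ y ∈ (s j).1.1 := fun x hx y hy =>
    ⟨max (n x) (n y), mono (le_max_left _ _) (hn x hx), mono (le_max_right _ _) (hn y hy)⟩
  obtain ⟨D₁, e1⟩ := ext_sub F (fun x => (s (n x)).1.2 x)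
    (fun x hx y hy => by
      obtain ⟨j, a, b⟩ := two x hx y hy
      rw [hd j _ a, hd j _ b, hd j _ (add_mem a b), map_add])
    (fun x hx y hy => by
      obtain ⟨j, a, b⟩ := two x hx y hy
      rw [hd j _ a, hd j _ b, hd j _ (mul_mem a b), Derivation.leibniz, smul_eq_mul, smul_eq_mul])
  have b1 : Bd F D₁ (2 * C) := fun x hx => by
    rw [e1 x hx]
    exact ((s (n x)).2 x (hn x hx)).trans (mul_le_mul_of_nonneg_right (c2 _) (norm_nonneg _))
  obtain ⟨D₂, e2, b2⟩ := clo_step b1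
  refine ⟨_, D₂, F.isClosed_topologicalClosure, (lF 0).trans F.le_topologicalClosure,
    fun j => F.le_topologicalClosure (lF (j + 1) (h2 j (s j))), fun x hx => ?_, b2⟩
  rw [e2 x (lF 0 hx), e1 x (lF 0 hx)]
  exact hd 0 x hx

theorem exists_der' (S : Set K) {a : K}
    (ha : a ∉ closure {b : K | IsAlgebraic (Subfield.closure S) b}) : ∃ C : ℝ, 0 < C ∧
    ∀ b : ℕ → K, ∃ (E : Subfield K) (D : Derivation ℤ K K), IsClosed (E : Set K) ∧ S ⊆ E ∧
      a ∈ E ∧ (∀ j, b j ∈ E) ∧ (∀ s ∈ S, D s = 0) ∧ D a = 1 ∧ Bd E D C := by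
  have := charZero_of hK
  set E₀ := acl (Subfield.closure S)
  have e0 : {b : K | IsAlgebraic (Subfield.closure S) b} = E₀ := Set.ext fun x => mem_acl.symm
  rw [e0] at ha
  have ne : (E₀ : Set K).Nonempty := ⟨0, zero_mem _⟩
  have δ0 : 0 < Metric.infDist a E₀ := (Metric.infDist_pos_iff_notMem_closure ne).1 ha
  have c0 := inv_pos.2 δ0
  obtain ⟨E₁, D₁, l1, m1, e1, a1, b1⟩ := tr_step (E := E₀) (D := 0) c0.le (fun x hx => acl_acl hx)
    (fun x _ => by simp; positivity) (b := a) (η := 1) (fun hh => ha (subset_closure hh))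
    fun e he => by
      have a1 : Metric.infDist a E₀ ≤ ‖a - e‖ := by
        rw [← dist_eq_norm]; exact Metric.infDist_le_dist_of_mem he
      simpa [le_inv_mul_iff₀ δ0] using a1
  refine ⟨_, mul_pos two_pos c0, fun b => ?_⟩
  obtain ⟨E₂, D₂, c2, l2, m2, e2, b2⟩ := tower hK c0 b1 b
  have hS : S ⊆ E₀ := fun s hs => le_acl _ (Subfield.subset_closure hs)
  exact ⟨E₂, D₂, c2, fun s hs => l2 (l1 (hS hs)), l2 m1, m2,
    fun s hs => (e2 s (l1 (hS hs))).trans (e1 s (hS hs)), (e2 a m1).trans a1, b2⟩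

theorem exists_der (S : Set K) {a : K}
    (ha : a ∉ closure {b : K | IsAlgebraic (Subfield.closure S) b}) (b : ℕ → K) :
    ∃ (E : Subfield K) (D : Derivation ℤ K K) (C : ℝ), IsClosed (E : Set K) ∧ 0 < C ∧ S ⊆ E ∧
      a ∈ E ∧ (∀ j, b j ∈ E) ∧ (∀ s ∈ S, D s = 0) ∧ D a = 1 ∧ Bd E D C := by
  obtain ⟨C, h0, h⟩ := exists_der' hK S ha
  obtain ⟨E, D, h1, h2⟩ := h b
  exact ⟨E, D, C, h1, h0, h2⟩

theorem notMem_of_der {S : Set K} {a : K} {E : Subfield K} {D : Derivation ℤ K K} {C : ℝ}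
    (hE : IsClosed (E : Set K)) (hC : 0 ≤ C) (hS : S ⊆ E) (ha : a ∈ E) (h0 : ∀ s ∈ S, D s = 0)
    (h1 : D a = 1) (hD : Bd E D C) :
    a ∉ closure {b : K | IsAlgebraic (Subfield.closure S) b} := fun h => by
  have lim : ∀ {T : Set K} {E' : Subfield K}, Bd E' D C → T ⊆ E' → (∀ t ∈ T, D t = 0) →
      ∀ x ∈ E', x ∈ closure T → D x = 0 := fun {T E'} hD hT h0 x hx hc => by
    refine norm_le_zero_iff.1 (le_of_forall_pos_le_add fun ε hε => ?_)
    obtain ⟨t, ht, hd⟩ := Metric.mem_closure_iff.1 hc (ε / (C + 1)) (by positivity)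
    have := hD _ (sub_mem hx (hT ht))
    rw [map_sub, h0 t ht, sub_zero] at this
    rw [dist_eq_norm, lt_div_iff₀ (by positivity)] at hd
    nlinarith [norm_nonneg (x - t)]
  set F := Subfield.closure S
  have l1 : F ≤ E := Subfield.closure_le.2 hS
  have l2 : F.topologicalClosure ≤ E := F.topologicalClosure_minimal l1 hE
  have z1 : ∀ x ∈ F, D x = 0 := fun x hx => by
    induction hx using Subfield.closure_induction with
    | mem x hx => exact h0 x hx
    | one => simp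
    | add x y _ _ hx hy => simp [hx, hy]
    | neg x _ hx => simp [hx]
    | inv x _ hx => simp [Derivation.leibniz_inv, hx]
    | mul x y _ _ hx hy => simp [hx, hy]
  have mono : ∀ {E₁ E₂ : Subfield K}, E₁ ≤ E₂ → ∀ {x : K}, IsAlgebraic E₁ x → IsAlgebraic E₂ x :=
    fun {E₁ E₂} h x hx => by
      let _ : Algebra E₁ E₂ := (Subfield.inclusion h).toAlgebra
      have : IsScalarTower E₁ E₂ K := .of_algebraMap_eq fun _ => rfl
      exact hx.tower_top E₂
  have z2 : ∀ x, IsAlgebraic F x → D x = 0 := fun x hx => by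
    simpa using alg_bound hK _ F.isClosed_topologicalClosure D le_rfl
      (fun e he => by simpa using lim hD l1 z1 e (l2 he) he) (mono F.le_topologicalClosure hx)
  have := lim (E' := acl E) (fun x hx => alg_bound hK E hE D hC hD (mem_acl.1 hx))
    (fun x hx => mem_acl.2 (mono l1 hx)) z2 a (le_acl E ha) h
  exact one_ne_zero (h1.symm.trans this)

end

end Pool.Agent.Lib.MP_7b66ee_ag.Kob
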