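import Pool.Agent.Lib.MP_7b66ee_ag.Kob.DerC
import Pool.Agent.Lib.MP_7b66ee_ag.Kob.Defs

/-! Topologically independent tuples form an open dense set. -/

namespace Pool.Agent.Lib.MP_7b66ee_ag.Kob

open Finset Filter Topology IsUltrametricDist

universe u

noncomputable section

variable {K : Type u} [NontriviallyNormedField K]

lemma alg_mono {E₁ E₂ : Subfield K} (h : E₁ ≤ E₂) {x : K} (hx : IsAlgebraic E₁ x) :
    IsAlgebraic E₂ x := by
  let _ : Algebra E₁ E₂ := (Subfield.inclusion h).toAlgebra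
  have : IsScalarTower E₁ E₂ K := .of_algebraMap_eq fun _ => rfl
  exact hx.tower_top E₂

lemma Cl_mono {S T : Set K} (h : S ⊆ Subfield.closure T) : Cl S ⊆ Cl T :=
  closure_mono fun _ hx => alg_mono (Subfield.closure_le.2 h) hx

lemma Cl_eq (S : Set K) : Cl S = (acl (Subfield.closure S)).topologicalClosure :=
  congrArg closure (Set.ext fun _ => mem_acl.symm)

lemma dense_compl {S : Set K} (h : Cl S ≠ Set.univ) (x : K) {ε : ℝ} (hε : 0 < ε) :
    ∃ a, a ∉ Cl S ∧ ‖a - x‖ < ε := by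
  rw [Cl_eq] at h ⊢
  set W := (acl (Subfield.closure S)).topologicalClosure
  obtain ⟨t, ht⟩ := (Set.ne_univ_iff_exists_notMem _).1 h
  by_cases hx : x ∈ W
  swap
  · exact ⟨x, hx, by simpa using hε⟩
  have : ∃ s, s ∉ W ∧ ‖s‖ < ε := by
    obtain ⟨π, π0, hπ⟩ := NormedField.exists_norm_lt K (r := min ε (ε / (‖t‖ + 1))) (by positivity)
    by_cases hw : π ∈ W
    · refine ⟨π * t, fun h => ht ?_, ?_⟩
      · simpa [norm_pos_iff.1 π0] using mul_mem (inv_mem hw) h
      · have := hπ.trans_le (min_le_right _ _)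
        rw [lt_div_iff₀ (by positivity)] at this
        rw [norm_mul]; nlinarith
    · exact ⟨π, hw, hπ.trans_le (min_le_left _ _)⟩
  obtain ⟨s, h1, h2⟩ := this
  exact ⟨x + s, fun h => h1 (by simpa using sub_mem h hx), by simpa using h2⟩

variable [IsUltrametricDist K] [IsAlgClosed K] [CompleteSpace K]
  (hK : ∀ m : ℕ, m ≠ 0 → ‖(m : K)‖ = 1) (k : Subfield K) (J : Type) [Fintype J]
include hK

theorem isOpen_Gen : IsOpen (Gen k J) := by
  classical
  rw [Metric.isOpen_iff]
  intro a ha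
  choose C C0 hC using fun j => exists_der' hK _ (ha j)
  have B0 : 0 ≤ ∑ j, C j := sum_nonneg fun j _ => (C0 j).le
  refine ⟨(∑ j, C j + 1)⁻¹, by positivity, fun a' h j₀ => ?_⟩
  have : Nonempty J := ⟨j₀⟩
  obtain ⟨e, he⟩ := exists_surjective_nat J
  choose E D h1 h2 h3 h4 h5 h6 h7 using fun j => hC j fun n => a' (e n)
  have m1 : ∀ i j, a i ∈ E j := fun i j => by
    by_cases h : i = j
    · exact h ▸ h3 j
    · exact h2 j (Or.inr ⟨i, h, rfl⟩)
  have m2 : ∀ i j, a' i ∈ E j := fun i j => by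
    obtain ⟨n, rfl⟩ := he i
    exact h4 j n
  have sm : ∀ i j, ‖D j (a' i - a i)‖ < 1 := fun i j => by
    refine (h7 j _ (sub_mem (m2 i j) (m1 i j))).trans_lt ?_
    rw [Metric.mem_ball, dist_eq_norm, ← one_div, lt_div_iff₀ (by positivity)] at h
    have b1 : C j ≤ ∑ j, C j := single_le_sum (fun j _ => (C0 j).le) (mem_univ j)
    have b2 : ‖a' i - a i‖ ≤ ‖a' - a‖ := norm_le_pi_norm (a' - a) i
    nlinarith [norm_nonneg (a' i - a i), C0 j]
  let A : Matrix J J K := Matrix.of fun i j => D j (a' i)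
  have hA : ∀ i j, A i j = D j (a' i - a i) + if i = j then 1 else 0 := fun i j => by
    rw [map_sub]
    split_ifs with h
    · rw [h, h6]; simp [A]
    · rw [h5 j (a i) (Or.inr ⟨i, h, rfl⟩)]; simp [A]
  have inj : Function.Injective A.mulVec := by
    refine (injective_iff_map_eq_zero A.mulVecLin).2 fun v hv => by_contra fun v0 => ?_
    obtain ⟨i, hi⟩ := Finite.exists_max fun i => ‖v i‖
    obtain ⟨i', hi'⟩ := Function.ne_iff.1 v0
    have p0 : 0 < ‖v i‖ := (norm_pos_iff.2 hi').trans_le (hi i')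
    have e1 : ∑ j, D j (a' i - a i) * v j + v i = 0 := by
      simpa [Matrix.mulVec, dotProduct, hA, add_mul, sum_add_distrib, -map_sub] using congrFun hv i
    obtain ⟨j, -, hj⟩ := exists_norm_finsetSum_le_of_nonempty univ_nonempty
      fun j => D j (a' i - a i) * v j
    rw [eq_neg_of_add_eq_zero_left e1, norm_neg, norm_mul] at hj
    nlinarith [sm i j, hi j, norm_nonneg (v j), norm_nonneg (D j (a' i - a i))]
  obtain ⟨v, hv⟩ := Matrix.mulVec_surjective_iff_isUnit.2 (Matrix.mulVec_injective_iff_isUnit.1 inj)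
    (Pi.single j₀ 1)
  have ap : ∀ x, (∑ j, v j • D j) x = ∑ j, v j * D j x := fun x => by
    rw [← Derivation.coeFnAddMonoidHom_apply, map_sum]; simp
  have hv' : ∀ i, (∑ j, v j • D j) (a' i) = (Pi.single j₀ (1 : K) : J → K) i := fun i => by
    rw [ap, ← hv]; simp [A, Matrix.mulVec, dotProduct, mul_comm]
  refine notMem_of_der hK (E := ⨅ j, E j) (D := ∑ j, v j • D j) (C := ∑ j, ‖v j‖ * C j)
    (by rw [Subfield.coe_iInf]; exact isClosed_iInter h1)
    (sum_nonneg fun j _ => mul_nonneg (norm_nonneg _) (C0 j).le) ?_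
    (Subfield.mem_iInf.2 (m2 j₀)) ?_ (by simp [hv']) fun x hx => ?_
  · rintro x (hx | ⟨i, -, rfl⟩)
    exacts [Subfield.mem_iInf.2 fun j => h2 j (Or.inl hx), Subfield.mem_iInf.2 (m2 i)]
  · rintro x (hx | ⟨i, hi, rfl⟩)
    · rw [ap]; exact sum_eq_zero fun j _ => by rw [h5 j x (Or.inl hx), mul_zero]
    · rw [hv', Pi.single_eq_of_ne hi]
  · rw [ap, sum_mul]
    refine norm_sum_le_of_le _ fun j _ => ?_
    rw [norm_mul, mul_assoc]
    exact mul_le_mul_of_nonneg_left (h7 j x (Subfield.mem_iInf.1 hx j)) (norm_nonneg _)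

theorem dense_Gen (H : ∀ S : Finset K, Cl (k ∪ S : Set K) ≠ Set.univ) : Dense (Gen k J) := by
  classical
  rw [Metric.dense_iff]
  intro a ε hε
  have key : ∀ T : Finset J, ∃ a' : J → K, (∀ j, ‖a' j - a j‖ < ε) ∧
      ∀ j ∈ T, a' j ∉ Cl (k ∪ a' '' ((T : Set J) \ {j})) := fun T => by
    induction T using Finset.induction_on with
    | empty => exact ⟨a, fun j => by simpa using hε, by simp⟩
    | insert i T hi ih =>
      obtain ⟨a', h1, h2⟩ := ih
      obtain ⟨b, hb, hb'⟩ := dense_compl (H (T.image a')) (a i) hε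
      rw [coe_image] at hb
      have up : ∀ j ∈ T, Function.update a' i b j = a' j := fun j hj =>
        Function.update_of_ne (fun e : j = i => hi (e ▸ hj)) _ _
      refine ⟨Function.update a' i b, fun j => ?_, fun j hj => ?_⟩
      · by_cases h : j = i
        · subst h; simpa using hb'
        · simpa [h] using h1 j
      rcases mem_insert.1 hj with rfl | hj
      · rw [Function.update_self]
        refine fun h => hb (Cl_mono (fun x hx => Subfield.subset_closure ?_) h)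
        rcases hx with hx | ⟨l, ⟨hl, hl'⟩, rfl⟩
        · exact Or.inl hx
        · have hl2 : l ∈ T := (mem_insert.1 hl).resolve_left hl'
          exact Or.inr ⟨l, hl2, (up l hl2).symm⟩
      · obtain ⟨E₁, D₁, C₁, c1, p1, s1, m1, -, z1, o1, b1⟩ := exists_der hK _ hb fun _ => 0
        obtain ⟨E₂, D₂, C₂, c2, p2, s2, m2, n2, z2, o2, b2⟩ :=
          exists_der hK _ (h2 j hj) fun _ => b
        rw [up j hj]
        refine notMem_of_der hK (E := E₁ ⊓ E₂) (D := D₂ - D₂ b • D₁) (C := C₂ + ‖D₂ b‖ * C₁)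
          (c1.inter c2) (by positivity) ?_ ⟨s1 (Or.inr ⟨j, hj, rfl⟩), m2⟩ ?_
          (by simp [o2, z1 _ (Or.inr ⟨j, hj, rfl⟩)]) fun x hx => ?_
        · rintro x (hx | ⟨l, ⟨hl, hl'⟩, rfl⟩)
          · exact ⟨s1 (Or.inl hx), s2 (Or.inl hx)⟩
          · rcases mem_insert.1 hl with rfl | hl
            · rw [Function.update_self]; exact ⟨m1, n2 0⟩
            · rw [up l hl]; exact ⟨s1 (Or.inr ⟨l, hl, rfl⟩), s2 (Or.inr ⟨l, ⟨hl, hl'⟩, rfl⟩)⟩
        · rintro x (hx | ⟨l, ⟨hl, hl'⟩, rfl⟩)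
          · simp [z1 _ (Or.inl hx), z2 _ (Or.inl hx)]
          · rcases mem_insert.1 hl with rfl | hl
            · simp [o1]
            · rw [up l hl]
              simp [z1 _ (Or.inr ⟨l, hl, rfl⟩), z2 _ (Or.inr ⟨l, ⟨hl, hl'⟩, rfl⟩)]
        · rw [Derivation.sub_apply, Derivation.smul_apply, smul_eq_mul, add_mul, mul_assoc]
          refine (norm_sub_le _ _).trans (add_le_add (b2 x hx.2) ?_)
          rw [norm_mul]
          exact mul_le_mul_of_nonneg_left (b1 x hx.1) (norm_nonneg _)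
  obtain ⟨a', h1, h2⟩ := key univ
  refine ⟨a', ?_, fun j => ?_⟩
  · rw [Metric.mem_ball, dist_pi_lt_iff hε]
    exact fun j => by rw [dist_eq_norm]; exact h1 j
  · simpa [Set.compl_eq_univ_sdiff] using h2 j (mem_univ j)

end

end Pool.Agent.Lib.MP_7b66ee_ag.Kob
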