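import Pool.Agent.Lib.MP_7b66ee_ag.Kob.Tan

/-! The linear algebra of the Clemens-Ein vector fields. -/

namespace Pool.Agent.Lib.MP_7b66ee_ag.Kob

open Finset Finsupp

universe u

noncomputable section

variable {ι κ : Type}

/-- indices of the twisted vector fields -/
structure UI (ι : Type) {κ : Type} (d : κ → ℕ) where
  l : κ
  J : ι →₀ ℕ
  i : ι
  j : ι
  h : J.degree + 1 = d l

section ring

variable {A B : Type u} [CommRing A] [CommRing B] {d : κ → ℕ}

def uvec (x : ι → A) (y : κ → (ι →₀ ℕ) → ι → A) (p : UI ι d) : ι → A :=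
  x p.j • y p.l (p.J + single p.i 1) - x p.i • y p.l (p.J + single p.j 1)

def rows {τ : Type} (x t : ι → A) (w : τ → ι → A) (s : κ → ι → A) : Bool ⊕ τ ⊕ κ → ι → A :=
  Sum.elim (fun b => cond b x t) (Sum.elim w s)

def Dt {ρ : Type} [Fintype ρ] [DecidableEq ρ] (σ : ρ → ι) (R : ρ → ι → A) : A :=
  (Matrix.of fun r s => R r (σ s)).det

variable {ρ : Type} [Fintype ρ] [DecidableEq ρ]

lemma Dt_map (φ : A →+* B) (σ : ρ → ι) (R : ρ → ι → A) :
    φ (Dt σ R) = Dt σ fun r i => φ (R r i) := RingHom.map_det φ _

/-- the minor as a linear form in one row -/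
def DL (σ : ρ → ι) (R : ρ → ι → A) (r : ρ) : (ι → A) →ₗ[A] A :=
  ((Matrix.detRowAlternating (n := ρ) (R := A)).toMultilinearMap.toLinearMap
    (fun r s => R r (σ s)) r) ∘ₗ LinearMap.funLeft A A σ

lemma DL_ap (σ : ρ → ι) (R : ρ → ι → A) (r : ρ) (v : ι → A) :
    DL σ R r v = Dt σ (Function.update R r v) := by
  change Matrix.detRowAlternating (Function.update (fun r s => R r (σ s)) r (v ∘ σ)) =
    Matrix.detRowAlternating fun r' s => Function.update R r v r' (σ s)
  congr 1
  funext r' s
  by_cases h : r' = r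
  · subst h; simp
  · simp [h]

omit [CommRing A] in
lemma rows_upd_t {τ : Type} [DecidableEq τ] [DecidableEq κ] (x t : ι → A) (w : τ → ι → A)
    (s : κ → ι → A) (l : κ) (v : ι → A) : rows x t w (Function.update s l v) =
      Function.update (rows x t w s) (.inr (.inr l)) v := by
  rw [rows, rows, Sum.update_elim_inr, Sum.update_elim_inr]

omit [CommRing A] in
lemma rows_upd_w {τ : Type} [DecidableEq τ] [DecidableEq κ] (x t : ι → A) (w : τ → ι → A)
    (s : κ → ι → A) (l : τ) (v : ι → A) : rows x t (Function.update w l v) s =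
      Function.update (rows x t w s) (.inr (.inl l)) v := by
  rw [rows, rows, Sum.update_elim_inr, Sum.update_elim_inl]

lemma exch (x : ι → A) (y : κ → (ι →₀ ℕ) → ι → A) (l : κ) (b b₀ : ι) (j m : ℕ) (h : j + m = d l) :
    x b₀ ^ j • y l (single b j + single b₀ m) - x b ^ j • y l (single b₀ (j + m)) ∈
      Submodule.span A (Set.range (uvec (d := d) x y)) := by
  induction j generalizing m with
  | zero => simp
  | succ j ih =>
    have h1 := ih (m + 1) (by omega)
    have h2 : uvec (d := d) x y ⟨l, single b j + single b₀ m, b, b₀, by simp; omega⟩ ∈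
      Submodule.span A (Set.range (uvec (d := d) x y)) := Submodule.subset_span ⟨_, rfl⟩
    convert add_mem (Submodule.smul_mem _ (x b₀ ^ j) h2) (Submodule.smul_mem _ (x b) h1) using 1
    have e1 : single b j + single b₀ m + single b 1 = single b (j + 1) + single b₀ m := by
      rw [single_add]; abel
    have e2 : single b j + single b₀ m + single b₀ 1 = single b j + single b₀ (m + 1) := by
      rw [single_add]; abel
    simp only [uvec, e1, e2, show j + (m + 1) = j + 1 + m by omega]
    funext i
    simp only [Pi.add_apply, Pi.sub_apply, Pi.smul_apply, smul_eq_mul]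
    ring

end ring

variable {M : Type u} [Field M] [Fintype ι] [Fintype κ] [DecidableEq κ]

theorem lin_core (d : κ → ℕ) (X Θ : ι → M) (Y : κ → (ι →₀ ℕ) → ι → M)
    (N : κ → (ι → M) →ₗ[M] M) (hX : ∀ l, N l X = 0) (hΘ : ∀ l, N l Θ = 0)
    (hY : ∀ l l' I, I.degree = d l' →
      N l (Y l' I) = if l = l' then -I.prod (fun i e => X i ^ e) else 0)
    (T : (ι → M) → Prop) (tX : T X) (tΘ : T Θ) (tY : ∀ l I, I.degree = d l → T (Y l I))
    (tU : ∀ p : UI ι d, T (uvec X Y p)) {m : ℕ}
    (hT : ∀ (ρ : Type) [Fintype ρ] (v : ρ → ι → M), LinearIndependent M v → (∀ r, T (v r)) →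
      Fintype.card ρ ≤ m) (h0 : LinearIndependent M fun b => cond b X Θ) {b₀ : ι}
    (hb : X b₀ ≠ 0) : ∃ (k : ℕ) (w : Fin k → UI ι d) (σ : Bool ⊕ Fin k ⊕ κ → ι),
      2 + k + Fintype.card κ ≤ m ∧
      Dt σ (rows X Θ (fun a => uvec X Y (w a)) fun l => Y l (single b₀ (d l))) ≠ 0 ∧
      ∀ (w' : Fin k → UI ι d) (b : ι),
        Dt σ (rows X Θ (fun a => uvec X Y (w' a)) fun l => Y l (single b (d l))) *
          X b₀ ^ (∑ l, d l) =
        Dt σ (rows X Θ (fun a => uvec X Y (w' a)) fun l => Y l (single b₀ (d l))) *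
          X b ^ (∑ l, d l) := by
  classical
  let P : ℕ → Prop := fun k => ∃ w : Fin k → UI ι d,
    LinearIndependent M (Sum.elim (fun b => cond b X Θ) fun a => uvec X Y (w a))
  have hex : ∃ k, ¬P k := ⟨Fintype.card ι, fun ⟨w, hw⟩ => by
    have := hw.fintype_card_le_finrank
    simp at this⟩
  have P0 : P 0 := ⟨Fin.elim0, by
    convert h0.comp (Equiv.sumEmpty Bool (Fin 0)) (Equiv.injective _) using 1
    funext r
    rcases r with r | r
    · rfl
    · exact r.elim0⟩
  obtain ⟨k, hk⟩ := Nat.exists_eq_succ_of_ne_zero (n := Nat.find hex) fun e =>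
    Nat.find_spec hex (e ▸ P0)
  have hn : ¬P (k + 1) := by have := Nat.find_spec hex; rwa [hk] at this
  obtain ⟨w, hw⟩ : P k := not_not.1 (Nat.find_min hex (by omega))
  have NU : ∀ l (p : UI ι d), N l (uvec X Y p) = 0 := fun l p => by
    rw [uvec, map_sub, map_smul, map_smul, hY _ _ _ (by simpa using p.h),
      hY _ _ _ (by simpa using p.h)]
    split_ifs
    · simp only [prod_add_index' (h := fun i e => X i ^ e) (fun _ => pow_zero _)
        (fun _ _ _ => pow_add _ _ _), prod_single_index (h := fun i e => X i ^ e) (pow_zero _),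
        smul_eq_mul]
      ring
    · simp
  have ind : LinearIndependent M
      (rows X Θ (fun a => uvec X Y (w a)) fun l => Y l (single b₀ (d l))) := by
    rw [Fintype.linearIndependent_iff] at hw ⊢
    intro c hc
    have h1 : ∀ l, c (.inr (.inr l)) = 0 := fun l => by
      have := congrArg (N l) hc
      simp only [Fintype.sum_sum_type, rows, Sum.elim_inl, Sum.elim_inr, map_add, map_sum,
        map_smul, NU, Fintype.sum_bool, cond_true, cond_false, hX, hΘ, smul_zero, sum_const_zero,
        zero_add, map_zero, hY l _ _ (degree_single _ _), smul_ite, Finset.sum_ite_eq, mem_univ,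
        if_true, prod_single_index (h := fun i e => X i ^ e) (pow_zero _)] at this
      simpa [hb] using this
    have h2 := hw (Sum.elim (fun b => c (.inl b)) fun a => c (.inr (.inl a))) (by
      simpa [Fintype.sum_sum_type, rows, h1] using hc)
    rintro (b | a | l)
    exacts [h2 (.inl b), h2 (.inr a), h1 l]
  obtain ⟨σ, hσ⟩ := exists_minor ind
  refine ⟨k, w, σ, ?_, hσ, fun w' b => ?_⟩
  · have := hT _ _ ind (by
      rintro ((_ | _) | a | l)
      exacts [tΘ, tX, tU _, tY _ _ (degree_single _ _)])
    simpa [add_assoc] using this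
  have van : ∀ (s : κ → ι → M) (l : κ), ∀ v ∈ Submodule.span M (Set.range (uvec (d := d) X Y)),
      DL σ (rows X Θ (fun a => uvec X Y (w' a)) s) (.inr (.inr l)) v = 0 := fun s l v hv => by
    refine (Submodule.span_le (p := LinearMap.ker _)).2 ?_ hv
    rintro _ ⟨p, rfl⟩
    refine LinearMap.mem_ker.2 ?_
    rw [DL_ap]
    refine Matrix.det_eq_zero_of_not_linearIndependent_rows fun h => hn ⟨Fin.cons p w', ?_⟩
    have h1 : LinearIndependent M (Function.update
        (rows X Θ (fun a => uvec X Y (w' a)) s) (.inr (.inr l)) (uvec X Y p)) :=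
      LinearIndependent.of_comp (LinearMap.funLeft M M σ) h
    let e : Bool ⊕ Fin (k + 1) → Bool ⊕ Fin k ⊕ κ :=
      Sum.map id (Fin.cons (.inr l) fun a => .inl a)
    have he : Function.Injective e := Function.injective_id.sumMap
      (Fin.cons_injective_iff.2 ⟨by simp, Sum.inl_injective⟩)
    convert h1.comp e he using 1
    funext r
    rcases r with r | r
    · exact (Function.update_of_ne (a := e (.inl r)) (by simp [e]) _
        (rows X Θ (fun a => uvec X Y (w' a)) s)).symm
    · refine Fin.cases ?_ (fun a => ?_) r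
      · exact (Function.update_self _ _ (rows X Θ (fun a => uvec X Y (w' a)) s)).symm
      · exact (Function.update_of_ne (a := e (.inr a.succ)) (by simp [e]) _
          (rows X Θ (fun a => uvec X Y (w' a)) s)).symm
  have key : ∀ S : Finset κ, Dt σ (rows X Θ (fun a => uvec X Y (w' a))
      fun l => if l ∈ S then Y l (single b (d l)) else Y l (single b₀ (d l))) *
        X b₀ ^ (∑ l ∈ S, d l) =
      Dt σ (rows X Θ (fun a => uvec X Y (w' a)) fun l => Y l (single b₀ (d l))) *
        X b ^ (∑ l ∈ S, d l) := fun S => by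
    induction S using Finset.induction_on with
    | empty => simp
    | insert l S hl ih =>
      set s := fun l => if l ∈ S then Y l (single b (d l)) else Y l (single b₀ (d l)) with hs
      have e1 : (fun l' => if l' ∈ insert l S then Y l' (single b (d l'))
          else Y l' (single b₀ (d l'))) = Function.update s l (Y l (single b (d l))) := by
        funext l'
        by_cases h : l' = l
        · subst h; simp
        · simp [h, hs]
      have e2 : Function.update s l (Y l (single b₀ (d l))) = s := by
        rw [Function.update_eq_self_iff]; simp [hs, hl]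
      have h1 := van s l _ (exch X Y l b b₀ (d l) 0 rfl)
      rw [single_zero, add_zero, add_zero, map_sub, map_smul, map_smul, DL_ap, DL_ap,
        ← rows_upd_t, ← rows_upd_t, e2] at h1
      rw [e1, sum_insert hl, pow_add, pow_add]
      simp only [smul_eq_mul] at h1
      linear_combination X b₀ ^ (∑ l ∈ S, d l) * h1 + X b ^ d l * ih
  simpa using key univ

end

end Pool.Agent.Lib.MP_7b66ee_ag.Kob
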