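import Pool.Agent.Lib.MP_7b66ee_ag.Kob.Ent
import Pool.Agent.Lib.MP_7b66ee_ag.Kob.DerC

/-! Everywhere convergent Laurent series and derivations of the coefficients. -/

namespace Pool.Agent.Lib.MP_7b66ee_ag.Kob

open Filter Topology IsUltrametricDist Finset

universe u

noncomputable section

variable {K : Type u} [NontriviallyNormedField K]

/-- the Laurent series converges on the whole multiplicative group -/
def Cv (a : ℤ → K) : Prop :=
  ∀ r : ℝ, 0 < r → Tendsto (fun k : ℤ => ‖a k‖ * r ^ k) cofinite (𝓝 0)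

lemma Cv.of_le {a b : ℤ → K} {C : ℝ} (ha : Cv a) (h : ∀ k, ‖b k‖ ≤ C * ‖a k‖) : Cv b :=
  fun r hr => squeeze_zero (fun k => by positivity)
    (fun k => (mul_le_mul_of_nonneg_right (h k) (by positivity)).trans_eq (mul_assoc _ _ _))
    (by simpa using (ha r hr).const_mul C)

lemma zpow_le_ann {r : ℝ} (z : Ann K r) (k : ℤ) : ‖z.1‖ ^ k ≤ max (r ^ k) (r⁻¹ ^ k) := by
  have z0 := norm_pos_iff.2 z.ne
  rcases le_total 0 k with h | h
  · exact le_max_of_le_left (zpow_le_zpow_left₀ h z0.le z.2.2)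
  · refine le_max_of_le_right ?_
    have := zpow_le_zpow_left₀ (neg_nonneg.2 h) (norm_nonneg _) z.inv_le
    rwa [norm_inv, inv_zpow', neg_neg, ← inv_zpow'] at this

lemma zf_lau (r : ℝ) : (fun z : Ann K r => z.1) ∈ Lau K r := Algebra.subset_adjoin (Or.inl rfl)

lemma zi_lau (r : ℝ) : (fun z : Ann K r => z.1⁻¹) ∈ Lau K r := Algebra.subset_adjoin (Or.inr rfl)

lemma zpow_lau {r : ℝ} (k : ℤ) : (fun z : Ann K r => z.1 ^ k) ∈ Lau K r := by
  obtain ⟨n, rfl | rfl⟩ := k.eq_nat_or_neg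
  · have : (fun z : Ann K r => z.1 ^ (n : ℤ)) = (fun z : Ann K r => z.1) ^ n :=
      funext fun z => zpow_natCast _ _
    rw [this]
    exact pow_mem (zf_lau (K := K) r) n
  · have : (fun z : Ann K r => z.1 ^ (-n : ℤ)) = (fun z : Ann K r => z.1⁻¹) ^ n :=
      funext fun z => by rw [zpow_neg, zpow_natCast, Pi.pow_apply, inv_pow]
    rw [this]
    exact pow_mem (zi_lau (K := K) r) n

variable [IsUltrametricDist K] [CompleteSpace K]

lemma Cv.summable {a : ℤ → K} (ha : Cv a) {z : K} (hz : z ≠ 0) :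
    Summable fun k : ℤ => a k * z ^ k := by
  refine NonarchimedeanAddGroup.summable_of_tendsto_cofinite_zero ?_
  rw [tendsto_zero_iff_norm_tendsto_zero]
  simpa using ha _ (norm_pos_iff.2 hz)

lemma Cv.tail {a : ℤ → K} (ha : Cv a) {r ε : ℝ} (hr : 0 < r) (hε : 0 < ε) (k₀ : ℤ) :
    ∃ S : Finset ℤ, k₀ ∈ S ∧ ∀ z : Ann K r,
      ‖∑' k : ℤ, a k * z.1 ^ k - ∑ k ∈ S, a k * z.1 ^ k‖ ≤ ε := by
  have h1 := ((ha r hr).eventually (gt_mem_nhds hε)).and
    ((ha r⁻¹ (inv_pos.2 hr)).eventually (gt_mem_nhds hε))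
  rw [eventually_cofinite] at h1
  refine ⟨insert k₀ h1.toFinset, mem_insert_self _ _, fun z => ?_⟩
  rw [← (ha.summable z.ne).sum_add_tsum_compl (s := insert k₀ h1.toFinset), add_sub_cancel_left]
  refine norm_tsum_le_of_forall_le_of_nonneg hε.le fun k => ?_
  have hk : ‖a k.1‖ * r ^ k.1 < ε ∧ ‖a k.1‖ * r⁻¹ ^ k.1 < ε := by
    by_contra hc
    exact k.2 (mem_coe.2 (mem_insert_of_mem (h1.mem_toFinset.2 hc)))
  rw [norm_mul, norm_zpow]
  refine (mul_le_mul_of_nonneg_left (zpow_le_ann z k.1) (norm_nonneg _)).trans ?_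
  rw [mul_max_of_nonneg _ _ (norm_nonneg _)]
  exact max_le hk.1.le hk.2.le

/-- the function given by a Laurent series -/
def serE (a : ℤ → K) (ha : Cv a) : Ent K := ⟨fun q => ∑' k : ℤ, a k * (q : K) ^ k, fun r ε hε => by
  by_cases hr : 0 < r
  · obtain ⟨S, -, hS⟩ := ha.tail hr hε 0
    refine ⟨∑ k ∈ S, a k • fun z : Ann K r => z.1 ^ k,
      sum_mem fun k _ => Subalgebra.smul_mem _ (zpow_lau k) _, fun z => ?_⟩
    simpa [un] using hS z
  · refine ⟨0, zero_mem _, fun z => absurd ?_ hr⟩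
    exact (norm_pos_iff.2 z.ne).trans_le z.2.2⟩

lemma ev_ser (a : ℤ → K) (ha : Cv a) (q : Kˣ) :
    ev q (serE a ha) = ∑' k : ℤ, a k * (q : K) ^ k := rfl

lemma GE_ser_le {a : ℤ → K} (ha : Cv a) (q : Kˣ) {c : ℝ}
    (h : ∀ k, ‖a k‖ * ‖(q : K)‖ ^ k ≤ c) : GE q (serE a ha) ≤ c :=
  GE_le fun w hw => norm_tsum_le_of_forall_le fun k => by
    rw [norm_mul, norm_zpow, hw]; exact h k

lemma cauchy [IsAlgClosed K] (hK : ∀ m : ℕ, m ≠ 0 → ‖(m : K)‖ = 1) {a : ℤ → K} (ha : Cv a)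
    (q : Kˣ) (k : ℤ) : ‖a k‖ * ‖(q : K)‖ ^ k ≤ GE q (serE a ha) := by
  have := charZero_of hK
  refine le_of_forall_pos_le_add fun ε hε => ?_
  obtain ⟨S, hk, hS⟩ := ha.tail (one_pos.trans_le (one_le_rad q)) hε k
  obtain ⟨m, hm⟩ : ∃ m : ℕ, ∀ l ∈ S, (l - k).natAbs < m :=
    ⟨S.sup (fun l => (l - k).natAbs) + 1, fun l hl =>
      Nat.lt_succ_of_le (le_sup (f := fun l => (l - k).natAbs) hl)⟩
  have m0 : m ≠ 0 := by have := hm k hk; omega
  have : NeZero m := ⟨m0⟩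
  obtain ⟨ζ, hζ⟩ := HasEnoughRootsOfUnity.exists_primitiveRoot K m
  have ζ0 := hζ.ne_zero m0
  have ζ1 : ‖ζ‖ = 1 := by
    have := congrArg norm hζ.pow_eq_one
    rw [norm_pow, norm_one] at this
    exact (pow_eq_one_iff_of_nonneg (norm_nonneg _) m0).1 this
  have key : ∑ j ∈ range m, (∑ l ∈ S, a l * (ζ ^ j * q) ^ l) * (ζ ^ j) ^ (-k) =
      m * (a k * (q : K) ^ k) := by
    have e : ∀ j l, a l * (ζ ^ j * q) ^ l * (ζ ^ j) ^ (-k) =
        a l * (q : K) ^ l * (ζ ^ (l - k)) ^ j := fun j l => by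
      rw [← zpow_natCast (ζ ^ (l - k)), ← zpow_mul, mul_comm (l - k), zpow_mul, zpow_natCast,
        sub_eq_add_neg, zpow_add₀ (pow_ne_zero _ ζ0), mul_zpow]
      ring
    simp only [sum_mul, e]
    rw [sum_comm, sum_eq_single_of_mem k hk fun l hl hlk => ?_]
    · simp
    · rw [← mul_sum]
      have h1 : ζ ^ (l - k) ≠ 1 := fun h => by
        have := Int.natAbs_le_of_dvd_ne_zero ((hζ.zpow_eq_one_iff_dvd _).1 h) (sub_ne_zero.2 hlk)
        have := hm l hl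
        omega
      rw [geom_sum_eq h1, ← zpow_natCast, ← zpow_mul, mul_comm (l - k), zpow_mul, zpow_natCast,
        hζ.pow_eq_one]
      simp
  have h2 := congrArg norm key
  rw [norm_mul, hK m m0, one_mul, norm_mul, norm_zpow] at h2
  rw [← h2]
  refine norm_sum_le_of_forall_le_of_nonneg (add_nonneg (GE_nonneg _ _) hε.le) fun j _ => ?_
  let w : Kˣ := Units.mk0 (ζ ^ j) (pow_ne_zero _ ζ0) * q
  have hw : ‖(w : K)‖ = ‖(q : K)‖ := by simp [w, ζ1]
  have h3 := hS (pt w (by simp only [rad, hw, le_rfl]))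
  have h4 := le_GE (serE a ha) hw
  rw [norm_mul, norm_zpow, norm_pow, ζ1, one_pow, one_zpow, mul_one]
  change ‖ev w (serE a ha) - ∑ l ∈ S, a l * (ζ ^ j * q) ^ l‖ ≤ ε at h3
  linarith [norm_le_norm_add_norm_sub (ev w (serE a ha)) (∑ l ∈ S, a l * (ζ ^ j * q) ^ l)]

lemma D_ser {E : Subfield K} (hE : IsClosed (E : Set K)) {D : Derivation ℤ K K} {C : ℝ}
    (h : Bd E D C) {a : ℤ → K} (ha : Cv a) (haE : ∀ k, a k ∈ E) {m : ℕ} (hm : (m : K) ≠ 0) :
    D (∑' k : ℤ, a k * (m : K) ^ k) = ∑' k : ℤ, D (a k) * (m : K) ^ k := by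
  have hb : Cv fun k => D (a k) := ha.of_le fun k => h _ (haE k)
  have s1 : Tendsto (fun S : Finset ℤ => ∑ k ∈ S, a k * (m : K) ^ k) atTop _ :=
    (ha.summable hm).hasSum
  have s2 : Tendsto (fun S : Finset ℤ => ∑ k ∈ S, D (a k) * (m : K) ^ k) atTop _ :=
    (hb.summable hm).hasSum
  have m1 : ∀ S : Finset ℤ, ∑ k ∈ S, a k * (m : K) ^ k ∈ E := fun S =>
    sum_mem fun k _ => mul_mem (haE k) (zpow_mem (natCast_mem E m) k)
  have m2 := hE.mem_of_tendsto s1 (.of_forall m1)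
  refine tendsto_nhds_unique ?_ s2
  have e : ∀ S : Finset ℤ, ∑ k ∈ S, D (a k) * (m : K) ^ k = D (∑ k ∈ S, a k * (m : K) ^ k) :=
    fun S => by simp [map_sum, Derivation.leibniz_zpow, mul_comm]
  simp only [e]
  rw [tendsto_iff_norm_sub_tendsto_zero] at s1 ⊢
  refine squeeze_zero (fun _ => norm_nonneg _) (fun S => ?_) (by simpa using s1.const_mul C)
  rw [← map_sub]
  exact h _ (sub_mem (m1 S) m2)

end

end Pool.Agent.Lib.MP_7b66ee_ag.Kob
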