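import Pool.Agent.Lib.MP_7b66ee_ag.Kob.Core
import Pool.Agent.Lib.MP_7b66ee_ag.Kob.Ser

/-! Analytic maps from the multiplicative group to topologically generic complete
intersections are constant. -/

namespace Pool.Agent.Lib.MP_7b66ee_ag.Kob

open Finset MvPolynomial Filter Topology

universe u

noncomputable section

lemma D_eval {K ι : Type*} [Field K] [Fintype ι] (D : Derivation ℤ K K) (p : ι → K)
    (g : MvPolynomial ι K) : D (aeval p g) =
      ∑ I ∈ g.support, D (coeff I g) * I.prod (fun i e => p i ^ e) + dv p (fun i => D (p i)) g := by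
  have mu : ∀ f g : MvPolynomial ι K, D (aeval p f) = dv p (fun i => D (p i)) f →
      D (aeval p g) = dv p (fun i => D (p i)) g →
      D (aeval p (f * g)) = dv p (fun i => D (p i)) (f * g) := fun f g hf hg => by
    rw [map_mul, Derivation.leibniz, dv_mul, hf, hg, smul_eq_mul, smul_eq_mul]
  have on : D (aeval p (1 : MvPolynomial ι K)) = dv p (fun i => D (p i)) (1 : MvPolynomial ι K) := by
    rw [map_one, Derivation.map_one_eq_zero, ← C_1, dv_C]
  have mo : ∀ I : ι →₀ ℕ, D (aeval p (I.prod fun i e => (X i : MvPolynomial ι K) ^ e)) =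
      dv p (fun i => D (p i)) (I.prod fun i e => (X i : MvPolynomial ι K) ^ e) := fun I => by
    refine prod_induction _ (fun f => D (aeval p f) = dv p (fun i => D (p i)) f) mu on
      fun i _ => ?_
    beta_reduce
    induction I i with
    | zero => rw [pow_zero]; exact on
    | succ n ih => rw [pow_succ]; exact mu _ _ ih (by rw [aeval_X, dv_X])
  let δ : MvPolynomial ι K →+ K := AddMonoidHom.mk' (dv p fun i => D (p i)) (dv_add _ _)
  change _ = _ + δ g
  conv_lhs => rw [g.as_sum]
  conv_rhs => enter [2]; rw [g.as_sum]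
  rw [map_sum, map_sum, map_sum, ← sum_add_distrib]
  refine sum_congr rfl fun I _ => ?_
  change _ = _ + dv p (fun i => D (p i)) _
  rw [monomial_eq, map_mul, Derivation.leibniz, dv_mul, dv_C, mo]
  simp only [Finsupp.prod, map_prod, map_pow, aeval_X, aeval_C, Algebra.algebraMap_self,
    RingHom.id_apply, smul_eq_mul]
  ring

variable {K : Type u} [NontriviallyNormedField K]

/-- the coefficients are topologically algebraically independent over k -/
def Ind {ι κ : Type} (k : Subfield K) (d : κ → ℕ) (F : κ → MvPolynomial ι K) : Prop :=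
  ∀ l I, I.degree = d l → coeff I (F l) ∉ closure {b : K | IsAlgebraic
    (Subfield.closure (k ∪ {a | ∃ l' I', (l', I') ≠ (l, I) ∧ a = coeff I' (F l')})) b}

variable [IsUltrametricDist K] [IsAlgClosed K] [CompleteSpace K]
  (hK : ∀ m : ℕ, m ≠ 0 → ‖(m : K)‖ = 1)
include hK

lemma deform {ι : Type} [Fintype ι] (a : ι → ℤ → K) (ha : ∀ i, Cv (a i)) {E : Subfield K}
    (hE : IsClosed (E : Set K)) {D : Derivation ℤ K K} {C : ℝ} (hD : Bd E D C)
    (haE : ∀ i k, a i k ∈ E) (g : MvPolynomial ι K)
    (hg : aeval (fun i => serE (a i) (ha i)) g = 0) :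
    ∑ I ∈ g.support, algebraMap K _ (D (coeff I g)) * I.prod (fun i e => serE (a i) (ha i) ^ e) +
      dv (fun i => serE (a i) (ha i))
        (fun i => serE (fun k => D (a i k)) ((ha i).of_le fun k => hD _ (haE i k))) g = 0 := by
  refine zero_of_nat hK fun m q hq => ?_
  have h1 := D_eval D (fun i => ev q (serE (a i) (ha i))) g
  rw [← comp_aeval_apply, hg, map_zero, map_zero] at h1
  rw [map_add, dv_map, h1]
  congr 1
  · simp [Finsupp.prod]
  · congr 1
    funext i
    rw [ev_ser, ev_ser, hq]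
    exact (D_ser hE hD (ha i) (haE i) (hq ▸ q.ne_zero)).symm

variable {k : Subfield K} {ι κ : Type} [Fintype ι] [Fintype κ] {d : κ → ℕ}
  {F : κ → MvPolynomial ι K} (hF : ∀ l, (F l).IsHomogeneous (d l)) (hI : Ind k d F)
  {𝒢 : Set (MvPolynomial ι k)} (hom : ∀ g ∈ 𝒢, ∃ e, g.IsHomogeneous e) {m : ℕ}
  (dim : ringKrullDim (MvPolynomial ι k ⧸ Ideal.span 𝒢) ≤ m)
  (hm : 2 * m ≤ ∑ l, d l + Fintype.card κ + 2) (hm' : Fintype.card κ + 3 ≤ ∑ l, d l)
include hF hI hom dim hm hm'

lemma aux (a : ι → ℤ → K) (ha : ∀ i, Cv (a i)) (x : ι → Ent K) (hx : ∀ i, x i = serE (a i) (ha i))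
    (hFx : ∀ l, aeval x (F l) = 0) (van : ∀ g ∈ 𝒢, aeval x g = 0) (h0 : ∀ q, ∃ i, ev q (x i) ≠ 0) :
    (∀ i j, x i * DE K (x j) = x j * DE K (x i)) ∨
    ((∃ i j, i ≠ j ∧ ∀ a, ∃ α β : K, x a = algebraMap K _ α * x i + algebraMap K _ β * x j) ∧
      ∃ C', ∀ q i, ∃ j, GE q (x i) ≤ C' * GE q (DE K (x j))) := by
  classical
  have := charZero_of hK
  obtain rfl : x = fun i => serE (a i) (ha i) := funext hx
  set x := fun i => serE (a i) (ha i)
  have : Nonempty ι := ⟨(h0 1).choose⟩
  obtain ⟨e, he⟩ := exists_surjective_nat (ι × ℤ)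
  have key : ∀ l (I : ι →₀ ℕ), ∃ (y : ι → Ent K) (C : ℝ), I.degree = d l →
      (∀ l', dv x y (F l') = if l' = l then -I.prod (fun i e => x i ^ e) else 0) ∧ Tan k x y ∧
        ∀ q i, GE q (y i) ≤ C * GE q (x i) := fun l I => by
    by_cases hd : I.degree = d l
    swap
    · exact ⟨0, 0, fun h => absurd h hd⟩
    obtain ⟨E, D, C, hE, C0, -, -, hb, hS, h1, hD⟩ :=
      exists_der hK _ (hI l I hd) fun j => a (e j).1 (e j).2
    have haE : ∀ i k, a i k ∈ E := fun i k => by
      obtain ⟨j, hj⟩ := he (i, k)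
      simpa [hj] using hb j
    refine ⟨fun i => serE (fun k => D (a i k)) ((ha i).of_le fun k => hD _ (haE i k)), C,
      fun _ => ⟨fun l' => ?_, fun g n hg h => ?_, fun q i => ?_⟩⟩
    · refine (eq_neg_of_add_eq_zero_right (deform hK a ha hE hD haE _ (hFx l'))).trans ?_
      split_ifs with h
      · subst h
        rw [sum_eq_single I (fun I' _ h => by
          rw [hS _ (Or.inr ⟨l', I', by simp [h], rfl⟩), map_zero, zero_mul]) fun h => by
          rw [notMem_support_iff.1 h, map_zero, map_zero, zero_mul], h1, map_one, one_mul]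
      · rw [sum_eq_zero fun I' _ => by
          rw [hS _ (Or.inr ⟨l', I', by simp [h], rfl⟩), map_zero, zero_mul], neg_zero]
    · have := deform hK a ha hE hD haE (map (algebraMap k K) g) (by rwa [aeval_map_algebraMap])
      rw [sum_eq_zero fun I' _ => by
        rw [coeff_map, hS (algebraMap k K _) (Or.inl (coeff I' g).2), map_zero, zero_mul],
        zero_add] at this
      simpa only [dv, pderiv_map, aeval_map_algebraMap] using this
    · refine GE_ser_le _ q fun n => ?_
      refine (mul_le_mul_of_nonneg_right (hD _ (haE i n)) (by positivity)).trans ?_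
      rw [mul_assoc]
      exact mul_le_mul_of_nonneg_left (cauchy hK (ha i) q n) C0.le
  choose y C hy using key
  choose B hB using fun l => ((Finsupp.finite_of_degree_le (σ := ι) (d l)).image (C l)).bddAbove
  obtain ⟨B', hB'⟩ := Finite.bddAbove_range B
  exact core d F hF x y hFx (fun l l' I h => (hy l' I h).1 l) (fun l I h => (hy l I h).2.1)
    (le_max_right B' 0) (fun l I h q i => ((hy l I h).2.2 q i).trans (mul_le_mul_of_nonneg_right
      (le_max_of_le_left ((hB l ⟨I, h.le, rfl⟩).trans (hB' ⟨l, rfl⟩))) (GE_nonneg _ _)))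
    hom van dim hm hm' h0

theorem main (a : ι → ℤ → K) (ha : ∀ i, Cv (a i)) (x : ι → Ent K)
    (hx : ∀ i, x i = serE (a i) (ha i)) (hFx : ∀ l, aeval x (F l) = 0)
    (van : ∀ g ∈ 𝒢, aeval x g = 0) (h0 : ∀ q, ∃ i, ev q (x i) ≠ 0) :
    ∃ (p : ι → K) (f : Ent K), ∀ i, x i = algebraMap K _ (p i) * f := by
  classical
  rcases aux hK hF hI hom dim hm hm' a ha x hx hFx van h0 with h | ⟨⟨i, j, hij, h⟩, -⟩
  · obtain ⟨b, hb⟩ := h0 1
    choose p hp using fun j => wronski hK hb (h b j)
    exact ⟨p, x b, hp⟩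
  choose α β h using h
  by_cases xi : x i = 0
  · exact ⟨β, x j, fun t => by rw [h t, xi, mul_zero, zero_add]⟩
  by_cases xj : ∃ r : K, x j = algebraMap K _ r * x i
  · obtain ⟨r, hr⟩ := xj
    exact ⟨fun t => α t + β t * r, x i, fun t => by rw [h t, hr, map_add, map_mul]; ring⟩
  exfalso
  let p : ι → K := fun t => if t = i then 1 else if t = j then 0 else α t
  let s : ι → K := fun t => if t = i then 0 else if t = j then 1 else β t
  have hp : ∀ t, x t = algebraMap K _ (p t) * x i + algebraMap K _ (s t) * x j := fun t => by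
    by_cases h1 : t = i
    · simp [p, s, h1]
    · by_cases h2 : t = j
      · simp [p, s, h2, hij.symm]
      · simpa [p, s, h1, h2] using h t
  let x' : ι → Ent K := fun t => algebraMap K _ (p t) + algebraMap K _ (s t) * zE
  have line : ∀ (g : MvPolynomial ι K) e, g.IsHomogeneous e → aeval x g = 0 → aeval x' g = 0 := by
    intro g e hg h0
    let M := FractionRing (Ent K)
    let φ : Ent K →ₐ[K] M := IsScalarTower.toAlgHom K _ _
    have inj : Function.Injective φ := IsFractionRing.injective (Ent K) M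
    have i0 : φ (x i) ≠ 0 := (map_ne_zero_iff φ inj).2 xi
    let R : Polynomial K :=
      aeval (fun t => Polynomial.C (p t) + Polynomial.C (s t) * Polynomial.X) g
    have hR : R = 0 := by
      by_contra hR
      have h1 : Polynomial.aeval (φ (x j) / φ (x i)) R = 0 := by
        have h2 := congrArg φ h0
        rw [comp_aeval_apply, map_zero, show (fun t => φ (x t)) = fun t => φ (x i) *
          (algebraMap K M (p t) + algebraMap K M (s t) * (φ (x j) / φ (x i))) from
            funext fun t => by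
              rw [hp t, map_add, map_mul, map_mul, AlgHom.commutes, AlgHom.commutes, mul_add,
                mul_left_comm, mul_div_cancel₀ _ i0, mul_comm], aeval_hom _ _ hg] at h2
        rw [comp_aeval_apply]
        simpa [i0] using h2
      have h2 : IsIntegral K (φ (x j) / φ (x i)) := IsAlgebraic.isIntegral ⟨R, hR, h1⟩
      obtain ⟨r, hr⟩ := minpoly.mem_range_of_degree_eq_one K _
        (IsAlgClosed.degree_eq_one_of_irreducible K (minpoly.irreducible h2))
      refine xj ⟨r, inj ?_⟩
      rw [map_mul, AlgHom.commutes, hr, div_mul_cancel₀ _ i0]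
    have := congrArg (Polynomial.aeval (zE (K := K))) hR
    rw [comp_aeval_apply, map_zero] at this
    simpa using this
  let a' : ι → ℤ → K := fun t n => if n = 0 then p t else if n = 1 then s t else 0
  have az : ∀ t, ∀ n ∉ ({0, 1} : Finset ℤ), a' t n = 0 := fun t n hn => by
    simp only [mem_insert, mem_singleton, not_or] at hn
    simp [a', hn.1, hn.2]
  have ha' : ∀ t, Cv (a' t) := fun t r _ => tendsto_const_nhds.congr'
    (({0, 1} : Finset ℤ).eventually_cofinite_notMem.mono fun n hn => by simp [az t n hn])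
  have xi' : x' i = 1 := by simp [x', p, s]
  have xj' : x' j = zE := by simp [x', p, s, hij.symm]
  rcases aux hK hF hI hom dim hm hm' a' ha' x' (fun t => ent_ext fun q => by
      rw [ev_ser, tsum_eq_sum (s := {0, 1}) fun n hn => by rw [az t n hn, zero_mul]]
      simp [x', a', ev_ap, zE]) (fun l => line _ _ (hF l) (hFx l))
    (fun g hg => by
      obtain ⟨e, he⟩ := hom g hg
      rw [← aeval_map_algebraMap K]
      exact line _ e (he.map _) (by rw [aeval_map_algebraMap]; exact van g hg))
    (fun q => ⟨i, by rw [xi', map_one]; exact one_ne_zero⟩) with h | ⟨-, C, h⟩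
  · have := congrArg (ev 1) (h i j)
    rw [xi', xj', DE_zE, Derivation.map_one_eq_zero] at this
    simp [ev_ap, zE] at this
  · have B0 : 0 ≤ ∑ t, ‖s t‖ := sum_nonneg fun _ _ => norm_nonneg _
    obtain ⟨w, w0, hw⟩ := NormedField.exists_norm_lt K
      (r := (|C| * ∑ t, ‖s t‖ + 1)⁻¹) (by positivity)
    obtain ⟨t, ht⟩ := h (Units.mk0 w (norm_pos_iff.1 w0)) i
    have e1 : DE K (x' t) = algebraMap K _ (s t) * zE := by simp [x', DE_zE]
    rw [xi', e1, GE_mul, GE_c, GE_zE, ← map_one (algebraMap K (Ent K)), GE_c, norm_one,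
      Units.val_mk0] at ht
    rw [lt_inv_comm₀ w0 (by positivity), ← one_div, lt_div_iff₀ w0] at hw
    have h1 : ‖s t‖ ≤ ∑ t, ‖s t‖ := single_le_sum (f := fun t => ‖s t‖)
      (fun _ _ => norm_nonneg _) (mem_univ t)
    have h2 : C * (‖s t‖ * ‖w‖) ≤ |C| * ((∑ t, ‖s t‖) * ‖w‖) :=
      mul_le_mul (le_abs_self C) (by gcongr) (by positivity) (abs_nonneg C)
    nlinarith

end

end Pool.Agent.Lib.MP_7b66ee_ag.Kob
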