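import Mathlib

/-! Directional derivatives of polynomials and the dimension of tangent spaces. -/

namespace Pool.Agent.Lib.MP_7b66ee_ag.Kob

open MvPolynomial Finset

universe u

noncomputable section

section dv

variable {R A B ι : Type*} [CommRing R] [CommRing A] [CommRing B] [Algebra R A] [Algebra R B]
  [Fintype ι]

/-- the derivative of g at x in the direction v -/
def dv (x v : ι → A) (g : MvPolynomial ι R) : A := ∑ i, aeval x (pderiv i g) * v i

lemma dv_add (x v : ι → A) (f g : MvPolynomial ι R) : dv x v (f + g) = dv x v f + dv x v g := by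
  simp [dv, add_mul, sum_add_distrib]

lemma dv_mul (x v : ι → A) (f g : MvPolynomial ι R) :
    dv x v (f * g) = aeval x f * dv x v g + aeval x g * dv x v f := by
  simp only [dv, Derivation.leibniz, smul_eq_mul, map_add, map_mul, add_mul, sum_add_distrib,
    mul_sum, mul_assoc]

lemma dv_C (x v : ι → A) (c : R) : dv x v (C c : MvPolynomial ι R) = 0 := by simp [dv]

lemma dv_X (x v : ι → A) (i : ι) : dv x v (X i : MvPolynomial ι R) = v i := by
  classical
  simp [dv, pderiv_X, Pi.single_apply]

lemma dv_rename {κ : Type*} [Fintype κ] (σ : κ → ι) (x v : ι → A) (g : MvPolynomial κ R) :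
    dv x v (rename σ g) = dv (x ∘ σ) (v ∘ σ) g := by
  induction g using MvPolynomial.induction_on with
  | C c => rw [rename_C, dv_C, dv_C]
  | add f g hf hg => rw [map_add, dv_add, dv_add, hf, hg]
  | mul_X f i hf => rw [map_mul, rename_X, dv_mul, dv_mul, dv_X, dv_X, hf]; simp [aeval_rename]

lemma dv_map (φ : A →ₐ[R] B) (x v : ι → A) (g : MvPolynomial ι R) :
    φ (dv x v g) = dv (fun i => φ (x i)) (fun i => φ (v i)) g := by
  simp only [dv, map_sum, map_mul, ← comp_aeval_apply]

lemma dv_lin (x v w : ι → A) (a b : A) (g : MvPolynomial ι R) :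
    dv x (a • v - b • w) g = a * dv x v g - b * dv x w g := by
  simp only [dv, Pi.sub_apply, Pi.smul_apply, smul_eq_mul, mul_sum, ← sum_sub_distrib]
  exact sum_congr rfl fun i _ => by ring

lemma dv_euler (x : ι → A) {g : MvPolynomial ι R} {e : ℕ} (h : g.IsHomogeneous e) :
    dv x x g = e * aeval x g := by
  have := congrArg (aeval x) h.sum_X_mul_pderiv
  simpa [dv, mul_comm] using this

lemma dv_der (D : Derivation R A A) (x : ι → A) (g : MvPolynomial ι R) :
    dv x (fun i => D (x i)) g = D (aeval x g) := by
  induction g using MvPolynomial.induction_on with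
  | C c => rw [dv_C, aeval_C, Derivation.map_algebraMap]
  | add f g hf hg => rw [map_add, dv_add, map_add, hf, hg]
  | mul_X f i hf => rw [map_mul, dv_mul, dv_X, hf, Derivation.leibniz]; simp

omit [Fintype ι] in
lemma aeval_hom (x : ι → A) (t : A) {g : MvPolynomial ι R} {e : ℕ} (h : g.IsHomogeneous e) :
    aeval (fun i => t * x i) g = t ^ e * aeval x g := by
  rw [g.as_sum, map_sum, map_sum, mul_sum]
  refine sum_congr rfl fun I hI => ?_
  rw [aeval_monomial, aeval_monomial, h.degree_eq_sum_deg_support hI, Finsupp.prod, Finsupp.prod]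
  simp only [mul_pow, prod_mul_distrib, prod_pow_eq_pow_sum]
  ring

end dv

lemma exists_minor {M ι ρ : Type*} [Field M] [Fintype ι] [Fintype ρ] [DecidableEq ρ]
    {v : ρ → ι → M} (hv : LinearIndependent M v) :
    ∃ σ : ρ → ι, (Matrix.of fun r s => v r (σ s)).det ≠ 0 := by
  classical
  let A : Matrix ρ ι M := Matrix.of v
  have h1 : A.rank = Fintype.card ρ := LinearIndependent.rank_matrix (M := A) hv
  obtain ⟨κ, a, ha, h2, h3⟩ := exists_linearIndependent' M A.col
  have : Finite κ := .of_injective a ha
  have := Fintype.ofFinite κ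
  rw [Matrix.rank_eq_finrank_span_cols, ← h2, finrank_span_eq_card h3] at h1
  let e := Fintype.equivOfCardEq h1
  refine ⟨a ∘ e.symm, ?_⟩
  have h4 : LinearIndependent M (Matrix.of fun r s => v r ((a ∘ e.symm) s)).col :=
    h3.comp e.symm e.symm.injective
  exact ((Matrix.isUnit_iff_isUnit_det _).1 (Matrix.linearIndependent_cols_iff_isUnit.1 h4)).ne_zero

lemma le_dim {k A : Type u} [Field k] [CommRing A] [IsDomain A] [Algebra k A]
    [Algebra.FiniteType k A] {ρ : Type} [Fintype ρ] {v : ρ → A} (hv : AlgebraicIndependent k v) :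
    ((Fintype.card ρ : ℕ) : WithBot ℕ∞) ≤ ringKrullDim A := by
  obtain ⟨s, g, hg, hf⟩ := exists_finite_inj_algHom_of_fg k A
  let P := MvPolynomial (Fin s) k
  let _ : Algebra P A := g.toRingHom.toAlgebra
  have : IsScalarTower k P A := .of_algebraMap_eq fun c => (g.commutes c).symm
  have : Module.Finite P A := hf
  have : FaithfulSMul P A := (faithfulSMul_iff_algebraMap_injective P A).mpr hg
  have hs : Fintype.card ρ ≤ s := by
    have h1 := trdeg_add_eq k P (A := A)
    rw [trdeg_eq_zero (R := P) (A := A), add_zero, MvPolynomial.trdeg_of_isDomain] at h1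
    have h2 := hv.lift_cardinalMk_le_trdeg
    rw [← h1] at h2
    simpa using h2
  have hP : ringKrullDim P = s := by
    rw [MvPolynomial.ringKrullDim_of_isNoetherianRing, ringKrullDim_eq_zero_of_field]
    simp
  refine le_trans (by exact_mod_cast hs) (hP.ge.trans ?_)
  refine iSup_le fun l => ?_
  obtain ⟨⟨Q, hQ, hQ'⟩⟩ := Ideal.nonempty_primesOver (S := A) l.head.asIdeal
  obtain ⟨M, hM, -⟩ := Ideal.exists_ltSeries_of_hasGoingUp l Q
  rw [← hM]
  exact Order.LTSeries.length_le_krullDim M

variable {k M : Type u} {ι : Type} [Field k] [Field M] [Algebra k M] [Fintype ι]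

variable (k) in
/-- v is tangent at x to the cone over the Zariski closure of x -/
def Tan {A : Type u} [CommRing A] [Algebra k A] (x v : ι → A) : Prop :=
  ∀ (g : MvPolynomial ι k) (e : ℕ), g.IsHomogeneous e → aeval x g = 0 → dv x v g = 0

theorem card_le [CharZero k] {x : ι → M} {𝒢 : Set (MvPolynomial ι k)}
    (hom : ∀ g ∈ 𝒢, ∃ e, g.IsHomogeneous e) (van : ∀ g ∈ 𝒢, aeval x g = 0) {m : ℕ}
    (dim : ringKrullDim (MvPolynomial ι k ⧸ Ideal.span 𝒢) ≤ m) {ρ : Type} [Fintype ρ]
    {v : ρ → ι → M} (hv : LinearIndependent M v) (ht : ∀ r, Tan k x (v r)) :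
    Fintype.card ρ ≤ m := by
  classical
  obtain ⟨σ, hσ⟩ := exists_minor hv
  have key : ∀ (e : ℕ) (P : MvPolynomial ρ k), P.IsHomogeneous e → aeval (x ∘ σ) P = 0 → P = 0 := by
    intro e
    induction e with
    | zero =>
      intro P hP h0
      rw [← totalDegree_zero_iff_isHomogeneous, totalDegree_eq_zero_iff_eq_C] at hP
      rw [hP, aeval_C, map_eq_zero] at h0
      rw [hP, h0, map_zero]
    | succ e ih =>
      intro P hP h0
      have h1 : (fun s => aeval (x ∘ σ) (pderiv s P)) = 0 := by
        refine Matrix.eq_zero_of_mulVec_eq_zero hσ (funext fun r => ?_)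
        have := ht r _ _ (hP.rename_isHomogeneous (f := σ)) (by rwa [aeval_rename])
        rw [dv_rename] at this
        simpa [dv, Matrix.mulVec, dotProduct, mul_comm] using this
      have h2 : ∀ s, pderiv s P = 0 := fun s => ih _ hP.pderiv (congrFun h1 s)
      have h3 := hP.sum_X_mul_pderiv
      simp only [h2, mul_zero, sum_const_zero] at h3
      exact (smul_eq_zero.1 h3.symm).resolve_left e.succ_ne_zero
  let φ : MvPolynomial ι k →ₐ[k] Polynomial M := aeval fun i => Polynomial.X * Polynomial.C (x i)
  have hφ : ∀ g e, g.IsHomogeneous e → φ g = Polynomial.monomial e (aeval x g) := fun g e h => by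
    rw [← Polynomial.C_mul_X_pow_eq_monomial, mul_comm]
    refine (aeval_hom _ _ h).trans (congrArg _ ?_)
    exact (comp_aeval_apply x ((Polynomial.CAlgHom (R := M) (A := M)).restrictScalars k) g).symm
  have hi : AlgebraicIndependent k fun r => φ.rangeRestrict (X (σ r)) := by
    rw [algebraicIndependent_iff]
    intro P hP
    have h1 : φ (rename σ P) = 0 := by
      have := congrArg (φ.range.val) hP
      rw [comp_aeval_apply, map_zero] at this
      rw [← this, ← aeval_X_left_apply (rename σ P), aeval_rename, comp_aeval_apply]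
      rfl
    rw [← sum_homogeneousComponent P, map_sum, map_sum] at h1
    rw [← sum_homogeneousComponent P]
    refine sum_eq_zero fun e he => key e _ (homogeneousComponent_isHomogeneous e P) ?_
    have h2 := congrArg (fun p => Polynomial.coeff p e) h1
    simp only [hφ _ _ (homogeneousComponent_isHomogeneous _ P).rename_isHomogeneous,
      Polynomial.finsetSum_coeff, Polynomial.coeff_monomial, sum_ite_eq', he, if_true,
      Polynomial.coeff_zero, aeval_rename] at h2
    exact h2
  have : Algebra.FiniteType k φ.range :=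
    .of_surjective φ.rangeRestrict φ.rangeRestrict_surjective
  have h2 : ringKrullDim φ.range ≤ ringKrullDim (MvPolynomial ι k ⧸ Ideal.span 𝒢) := by
    refine ringKrullDim_le_of_surjective (Ideal.Quotient.lift _ φ.rangeRestrict.toRingHom
      fun g hg => ?_) (Ideal.Quotient.lift_surjective_of_surjective _ _ φ.rangeRestrict_surjective)
    refine (Ideal.span_le (I := RingHom.ker φ.rangeRestrict.toRingHom)).2 (fun g hg => ?_) hg
    obtain ⟨e, he⟩ := hom g hg
    refine Subtype.ext ?_
    change φ g = 0
    rw [hφ g e he, van g hg, map_zero]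
  exact_mod_cast ((le_dim hi).trans h2).trans dim

end

end Pool.Agent.Lib.MP_7b66ee_ag.Kob
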